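import Mathlib

/-!
# Definitions for `MP_6197f9_co`: the order complex of a subrack lattice and its reduced homology
-/

namespace Pool.SubrackLattice

open Finset

noncomputable section

open scoped Classical

variable {α : Type*} [PartialOrder α]

/-- `σ` is a finite chain of elements of `P` (a face of the order complex of `P`, or `∅`). -/
def IsFace (P : Set α) (σ : Finset α) : Prop :=
  (∀ x ∈ σ, x ∈ P) ∧ ∀ x ∈ σ, ∀ y ∈ σ, x ≤ y ∨ y ≤ x

/-- The augmented simplicial chain group of the order complex of `P` in dimension `k - 1`:
integral combinations of the `k`-element chains of `P` (for `k = 0` of the empty chain). -/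
def chainsOf (P : Set α) (k : ℕ) : Submodule ℤ (Finset α →₀ ℤ) :=
  Finsupp.supported ℤ ℤ {σ | IsFace P σ ∧ σ.card = k}

/-- The simplicial boundary: for `x₀ < x₁ < ⋯ < x_k` it is `∑ᵢ (-1)ⁱ {x₀, …, x̂ᵢ, …, x_k}`; the
position `i` of `x` in the chain `σ` is the number of `y ∈ σ` with `y < x`. -/
def boundary : (Finset α →₀ ℤ) →ₗ[ℤ] (Finset α →₀ ℤ) :=
  Finsupp.lsum ℤ fun σ : Finset α =>
    ∑ x ∈ σ, ((-1 : ℤ) ^ (σ.filter fun y => y < x).card) • Finsupp.lsingle (σ.erase x)

/-- The order complex of `P` is acyclic: its reduced integral homology vanishes in every degree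
(in degree `k - 1` for every `k`; for `k = 0` this says that `P` is not empty). -/
def Acyclic (P : Set α) : Prop :=
  ∀ k : ℕ, ∀ z ∈ chainsOf P k, boundary z = 0 → ∃ w ∈ chainsOf P (k + 1), boundary w = z

/-- Subracks: subsets closed under the operation (the empty set counts). -/
def IsSubrack {Q : Type*} [Rack Q] (S : Set Q) : Prop :=
  ∀ x ∈ S, ∀ y ∈ S, Shelf.act x y ∈ S

/-- The proper part of the lattice of subracks of the rack `C`, where `C` is a subrack of the rack
`Q`: all nonempty subracks properly contained in `C`. -/
def properSubracks {Q : Type*} [Rack Q] (C : Set Q) : Set (Set Q) :=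
  {S | IsSubrack S ∧ S.Nonempty ∧ S ⊂ C}

/-- The inner automorphism group of a rack: the group of permutations generated by the left
translations. -/
def Inn (R : Type*) [Rack R] : Subgroup (Equiv.Perm R) :=
  Subgroup.closure (Set.range fun x : R => Rack.act' x)

/-- The left translation by `x` as an element of `Inn R`. -/
def translation {R : Type*} [Rack R] (x : R) : Inn R :=
  ⟨Rack.act' x, Subgroup.subset_closure ⟨x, rfl⟩⟩

/-- The image of `R` in the quotient group `Inn R ⧸ N`: the set of cosets of left translations. It
is a union of conjugacy classes, hence a subrack of the conjugation quandle of `Inn R ⧸ N`. -/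
def imageQuandle {R : Type*} [Rack R] (N : Subgroup (Inn R)) [N.Normal] :
    Set (Quandle.Conj (Inn R ⧸ N)) :=
  Set.range fun x : R => (QuotientGroup.mk (translation x) : Inn R ⧸ N)

end

end Pool.SubrackLattice
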