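import Pool.Agent.Work.MP_6197f9_h7.Homology

/-!
# Proper subgroups meeting all conjugates of `C`: solvable normal subgroups
-/

namespace Pool.SubrackLattice

open scoped commutatorElement

variable {G : Type*} [Group G]

/-- proper subgroups containing a conjugate of every element of `C` -/
def UU (C : Set G) : Set (Subgroup G) :=
  {H | H ≠ ⊤ ∧ ∀ c ∈ C, ∃ g : G, g * c * g⁻¹ ∈ H}

/-- those containing `M` -/
def UM (C : Set G) (M : Subgroup G) : Set (Subgroup G) := {H | H ∈ UU C ∧ M ≤ H}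

lemma UM_bot (C : Set G) : UM C ⊥ = UU C := by
  ext H; simp [UM]

lemma exists_mul_of_sup {H N : Subgroup G} [N.Normal] (h : H ⊔ N = ⊤) (g : G) :
    ∃ a ∈ H, ∃ n ∈ N, g = a * n := by
  have h1 : g ∈ ((H ⊔ N : Subgroup G) : Set G) := by rw [h]; trivial
  rw [Subgroup.mul_normal] at h1
  obtain ⟨a, ha, n, hn, rfl⟩ := h1
  exact ⟨a, ha, n, hn, rfl⟩

section Step

variable [Finite G] {C : Set G} {M N : Subgroup G}

lemma inf_eq_of_compl [M.Normal] [N.Normal] (hMN : M ≤ N) (hcomm : ∀ x ∈ N, ∀ y ∈ N, ⁅x, y⁆ ∈ M)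
    (hchief : ∀ K : Subgroup G, K.Normal → M ≤ K → K ≤ N → K = M ∨ K = N)
    {H : Subgroup G} (hMH : M ≤ H) (hH : H ≠ ⊤) (hHN : H ⊔ N = ⊤) : H ⊓ N = M := by
  have hnorm : (H ⊓ N).Normal := by
    refine ⟨fun x hx g => ?_⟩
    obtain ⟨a, ha, n, hn, rfl⟩ := exists_mul_of_sup hHN g
    have h1 : n * x * n⁻¹ ∈ H ⊓ N := by
      have h2 := hcomm n hn x hx.2
      have h3 : n * x * n⁻¹ = ⁅n, x⁆ * x := by simp [commutatorElement_def]
      rw [h3]
      exact Subgroup.mul_mem _ ⟨hMH h2, hMN h2⟩ hx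
    have h4 : a * n * x * (a * n)⁻¹ = a * (n * x * n⁻¹) * a⁻¹ := by group
    rw [h4]
    exact ⟨H.mul_mem (H.mul_mem ha h1.1) (H.inv_mem ha), Subgroup.Normal.conj_mem ‹N.Normal› _ h1.2 a⟩
  rcases hchief _ hnorm (le_inf hMH hMN) inf_le_right with h | h
  · exact h
  · exfalso
    apply hH
    rw [← hHN]
    exact (sup_eq_left.mpr (by rw [← h]; exact inf_le_left)).symm

lemma eq_of_compl_le [M.Normal] [N.Normal] (hMN : M ≤ N) (hcomm : ∀ x ∈ N, ∀ y ∈ N, ⁅x, y⁆ ∈ M)
    (hchief : ∀ K : Subgroup G, K.Normal → M ≤ K → K ≤ N → K = M ∨ K = N)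
    {H K : Subgroup G} (hMH : M ≤ H) (hHN : H ⊔ N = ⊤) (hHK : H ≤ K) (hK : K ≠ ⊤) : H = K := by
  refine le_antisymm hHK ?_
  have hKN : K ⊔ N = ⊤ := top_le_iff.mp (hHN ▸ sup_le_sup_right hHK N)
  have h1 := inf_eq_of_compl hMN hcomm hchief (hMH.trans hHK) hK hKN
  intro k hk
  obtain ⟨a, ha, n, hn, rfl⟩ := exists_mul_of_sup hHN k
  have h2 : n ∈ K := by
    have := K.mul_mem (K.inv_mem (hHK ha)) hk
    simpa using this
  have h3 : n ∈ M := by rw [← h1]; exact ⟨h2, hn⟩
  exact H.mul_mem ha (hMH h3)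

/-- one chief step -/
lemma acyc_step [M.Normal] [N.Normal] (hMN : M ≤ N) (hcomm : ∀ x ∈ N, ∀ y ∈ N, ⁅x, y⁆ ∈ M)
    (hchief : ∀ K : Subgroup G, K.Normal → M ≤ K → K ≤ N → K = M ∨ K = N)
    (hgen : Subgroup.closure C = ⊤) : Acyc (UM C M) ↔ Acyc (UM C N) := by
  have hfin : ∀ S : Set (Subgroup G), S.Finite := fun S => Set.toFinite S
  set P := UM C M with hP
  set A : Set (Subgroup G) := {H | H ∈ P ∧ H ⊔ N ≠ ⊤} with hA
  have hUA : UM C N ⊆ A := by
    rintro H ⟨hH, hNH⟩
    refine ⟨⟨hH, hMN.trans hNH⟩, ?_⟩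
    rw [sup_eq_left.mpr hNH]; exact hH.1
  have hAP : A ⊆ P := fun H hH => hH.1
  -- the closure `H ↦ H ⊔ N` on `A`
  have hcl : ∀ H ∈ A, H ⊔ N ∈ UM C N := by
    rintro H ⟨⟨hH, _⟩, hHN⟩
    refine ⟨⟨hHN, fun c hc => ?_⟩, le_sup_right⟩
    obtain ⟨g, hg⟩ := hH.2 c hc
    exact ⟨g, (le_sup_left : H ≤ H ⊔ N) hg⟩
  have hRA : Rel (UM C N) A := by
    apply rel_of_up (hfin _) hUA
    rintro H ⟨hH, hHn⟩
    refine ⟨H ⊔ N, hcl H hH, lt_of_le_of_ne le_sup_left ?_, ?_⟩
    · intro h; exact hHn (h ▸ hcl H hH)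
    · rintro K ⟨_, hNK⟩ hHK
      exact sup_le hHK.le hNK
  rw [hRA.acyc_iff hUA]
  -- lower links
  have hlink : ∀ H ∈ P \ A, Rel (link A H) A := by
    rintro H ⟨⟨hHU, hMH⟩, hHA⟩
    have hHN : H ⊔ N = ⊤ := by
      by_contra h; exact hHA ⟨⟨hHU, hMH⟩, h⟩
    have hlk : ∀ K, K ∈ link A H ↔ K ∈ A ∧ K ≤ H := by
      intro K
      constructor
      · rintro ⟨hK, h | h⟩
        · exact ⟨hK, h.le⟩
        · exfalso
          exact hHA (by
            have := eq_of_compl_le hMN hcomm hchief hMH hHN h.le hK.1.1.1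
            rw [this]; exact hK)
      · rintro ⟨hK, h⟩
        refine ⟨hK, Or.inl (lt_of_le_of_ne h ?_)⟩
        rintro rfl; exact hHA hK
    set B := UM C N ∪ link A H with hB
    have hBA : B ⊆ A := by
      rintro K (hK | hK)
      · exact hUA hK
      · exact hK.1
    have hLB : link A H ⊆ B := Set.subset_union_right
    have r1 : Rel B A := by
      apply rel_of_up (hfin _) hBA
      rintro K ⟨hK, hKB⟩
      refine ⟨K ⊔ N, Or.inl (hcl K hK), lt_of_le_of_ne le_sup_left ?_, ?_⟩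
      · intro h; exact hKB (Or.inl (h ▸ hcl K hK))
      · rintro T (hT | hT) hKT
        · exact sup_le hKT.le hT.2
        · exfalso
          exact hKB (Or.inr ((hlk K).mpr ⟨hK, hKT.le.trans ((hlk T).mp hT).2⟩))
    have r2 : Rel (link A H) B := by
      apply rel_of_down (hfin _) hLB
      rintro K ⟨hK, hKL⟩
      have hKU : K ∈ UM C N := hK.resolve_right hKL
      have hKA := hUA hKU
      have hmem : K ⊓ H ∈ link A H := by
        rw [hlk]
        refine ⟨⟨⟨⟨?_, ?_⟩, le_inf (hMN.trans hKU.2) hMH⟩, ?_⟩, inf_le_right⟩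
        · intro h; exact hHU.1 (top_le_iff.mp (h ▸ inf_le_right))
        · intro c hc
          obtain ⟨g, hg⟩ := hKU.1.2 c hc
          obtain ⟨g', hg'⟩ := hHU.2 c hc
          obtain ⟨a, ha, n, hn, hgg⟩ := exists_mul_of_sup hHN (g' * g⁻¹)
          have e1 : n * (g * c * g⁻¹) * n⁻¹ = a⁻¹ * (g' * c * g'⁻¹) * a := by
            have : g' = a * n * g := by rw [← hgg]; group
            rw [this]; group
          refine ⟨n * g, ?_, ?_⟩
          · have : n * g * c * (n * g)⁻¹ = n * (g * c * g⁻¹) * n⁻¹ := by group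
            rw [this]
            exact K.mul_mem (K.mul_mem (hKU.2 hn) hg) (K.inv_mem (hKU.2 hn))
          · have : n * g * c * (n * g)⁻¹ = n * (g * c * g⁻¹) * n⁻¹ := by group
            rw [this, e1]
            exact H.mul_mem (H.mul_mem (H.inv_mem ha) hg') ha
        · intro h
          apply hKU.1.1
          rw [← top_le_iff, ← h]
          exact sup_le inf_le_left hKU.2
      refine ⟨K ⊓ H, hmem, lt_of_le_of_ne inf_le_left ?_, ?_⟩
      · intro h; rw [h] at hmem; exact hKL hmem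
      · intro T hT hTK
        exact le_inf hTK.le ((hlk T).mp hT).2
    exact Rel.trans hLB hBA r2 r1
  have hanti : ∀ x ∈ P \ A, ∀ y ∈ P \ A, x ≤ y → x = y := by
    rintro H ⟨hHP, hHA⟩ K ⟨hKP, _⟩ hHK
    have hHN : H ⊔ N = ⊤ := by
      by_contra h; exact hHA ⟨hHP, h⟩
    exact eq_of_compl_le hMN hcomm hchief hHP.2 hHN hHK hKP.1.1
  constructor
  · intro hPac
    by_cases hempty : (P \ A).Nonempty
    · obtain ⟨H, hHP, hHA⟩ := hempty
      have hHN : H ⊔ N = ⊤ := by
        by_contra h; exact hHA ⟨hHP, h⟩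
      -- a conjugate of `H` different from `H`
      have hex : ∃ n : G, H.map (MulAut.conj n).toMonoidHom ≠ H := by
        by_contra hcon
        push Not at hcon
        apply hHP.1.1
        rw [← top_le_iff, ← hgen, Subgroup.closure_le]
        intro c hc
        obtain ⟨g, hg⟩ := hHP.1.2 c hc
        have h1 := hcon g⁻¹
        rw [SetLike.mem_coe, ← h1, Subgroup.mem_map]
        exact ⟨_, hg, by simp [mul_assoc]⟩
      obtain ⟨n, hn⟩ := hex
      set K := H.map (MulAut.conj n).toMonoidHom with hK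
      have hKtop : K ≠ ⊤ := by
        intro h
        apply hHP.1.1
        rw [eq_top_iff]
        intro x _
        have : (MulAut.conj n) x ∈ K := by rw [h]; trivial
        obtain ⟨y, hy, hyx⟩ := Subgroup.mem_map.mp this
        have : y = x := (MulAut.conj n).injective hyx
        rwa [← this]
      have hKP : K ∈ P := by
        refine ⟨⟨hKtop, ?_⟩, ?_⟩
        · intro c hc
          obtain ⟨g, hg⟩ := hHP.1.2 c hc
          refine ⟨n * g, Subgroup.mem_map.mpr ⟨_, hg, ?_⟩⟩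
          simp [mul_assoc]
        · intro m hm
          refine Subgroup.mem_map.mpr ⟨n⁻¹ * m * n, hHP.2 ?_, ?_⟩
          · have := Subgroup.Normal.conj_mem ‹M.Normal› m hm n⁻¹
            simpa using this
          · simp [mul_assoc]
      have hKN : K ⊔ N = ⊤ := by
        have h1 : N.map (MulAut.conj n).toMonoidHom = N := by
          ext x
          rw [Subgroup.mem_map]
          constructor
          · rintro ⟨y, hy, rfl⟩
            exact Subgroup.Normal.conj_mem ‹N.Normal› y hy n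
          · intro hx
            refine ⟨n⁻¹ * x * n, ?_, by simp [mul_assoc]⟩
            have := Subgroup.Normal.conj_mem ‹N.Normal› x hx n⁻¹
            simpa using this
        rw [← h1, hK, ← Subgroup.map_sup, hHN]
        exact Subgroup.map_top_of_surjective _ (MulAut.conj n).surjective
      have hKA : K ∉ A := fun h => h.2 hKN
      refine acyc_of_two hAP hHP hKP hHA hKA (Ne.symm hn) ?_ (hlink H ⟨hHP, hHA⟩)
        (hlink K ⟨hKP, hKA⟩) hPac
      rintro T ⟨hT, hT'⟩
      by_contra hTA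
      rcases hT' with h | h
      · exact absurd (hanti T ⟨hT, hTA⟩ H ⟨hHP, hHA⟩ h.le) h.ne
      · exact absurd (hanti H ⟨hHP, hHA⟩ T ⟨hT, hTA⟩ h.le) h.ne
    · have : P = A := by
        refine Set.Subset.antisymm (fun x hx => ?_) hAP
        by_contra hxA
        exact hempty ⟨x, hx, hxA⟩
      rwa [← this]
  · intro hAac
    have hR : Rel A P := by
      refine rel_of_antichain (hfin _) hAP hanti ?_
      intro H hH
      exact ((hlink H hH).acyc_iff (link_subset A H)).mpr hAac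
    exact (hR.acyc_iff hAP).mp hAac

end Step

section Solvable

/-- iterated commutator subgroups of `N` inside `G` -/
def Dser (N : Subgroup G) : ℕ → Subgroup G
  | 0 => N
  | (n + 1) => ⁅Dser N n, Dser N n⁆

lemma Dser_normal (N : Subgroup G) [hN : N.Normal] : ∀ n, (Dser N n).Normal
  | 0 => hN
  | (n + 1) => by
    have := Dser_normal N n
    exact Subgroup.commutator_normal _ _

lemma Dser_le (N : Subgroup G) [N.Normal] : ∀ n, Dser N n ≤ N
  | 0 => le_rfl
  | (n + 1) => by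
    have := Dser_normal N n
    exact (Subgroup.commutator_le_left _ _).trans (Dser_le N n)

lemma Dser_eq_map (N : Subgroup G) : ∀ n, Dser N n = (derivedSeries N n).map N.subtype
  | 0 => by
    rw [derivedSeries_zero, ← MonoidHom.range_eq_map, Subgroup.range_subtype]; rfl
  | (n + 1) => by
    rw [derivedSeries_succ, Subgroup.map_commutator, ← Dser_eq_map N n]; rfl

lemma exists_Dser_bot (N : Subgroup G) [Group.IsSolvable N] : ∃ n, Dser N n = ⊥ := by
  obtain ⟨n, hn⟩ := Group.IsSolvable.solvable (G := N)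
  exact ⟨n, by rw [Dser_eq_map, hn, Subgroup.map_bot]⟩

lemma exists_chief [Finite G] {M N : Subgroup G} [hM : M.Normal] [N.Normal] [Group.IsSolvable N]
    (hMN : M ≤ N) (hne : M ≠ N) :
    ∃ N' : Subgroup G, N'.Normal ∧ M ≤ N' ∧ M ≠ N' ∧ N' ≤ N ∧ (∀ x ∈ N', ∀ y ∈ N', ⁅x, y⁆ ∈ M) ∧
      ∀ K : Subgroup G, K.Normal → M ≤ K → K ≤ N' → K = M ∨ K = N' := by
  classical
  have hex : ∃ n, Dser N n ≤ M := by
    obtain ⟨n, hn⟩ := exists_Dser_bot N
    exact ⟨n, by rw [hn]; exact bot_le⟩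
  obtain ⟨i, hi, hmin⟩ : ∃ i, Dser N i ≤ M ∧ ∀ j < i, ¬ Dser N j ≤ M :=
    ⟨Nat.find hex, Nat.find_spec hex, fun j hj => Nat.find_min hex hj⟩
  have hi0 : i ≠ 0 := by
    rintro rfl
    exact hne (le_antisymm hMN hi)
  obtain ⟨j, rfl⟩ := Nat.exists_eq_succ_of_ne_zero hi0
  have hj := hmin j (Nat.lt_succ_self j)
  set D := Dser N j with hD
  have hDn : D.Normal := Dser_normal N j
  set N2 := M ⊔ D with hN2
  have hN2comm : ∀ x ∈ N2, ∀ y ∈ N2, ⁅x, y⁆ ∈ M := by
    have hdec : ∀ x ∈ N2, ∃ m ∈ M, ∃ d ∈ D, x = m * d := by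
      intro x hx
      have : x ∈ ((M ⊔ D : Subgroup G) : Set G) := hx
      rw [Subgroup.mul_normal] at this
      obtain ⟨m, hm, d, hd, rfl⟩ := this
      exact ⟨m, hm, d, hd, rfl⟩
    intro x hx y hy
    obtain ⟨m, hm, d, hd, rfl⟩ := hdec x hx
    obtain ⟨m', hm', d', hd', rfl⟩ := hdec y hy
    rw [← QuotientGroup.eq_one_iff (N := M)]
    have q1 : ((m : G) : G ⧸ M) = 1 := (QuotientGroup.eq_one_iff m).mpr hm
    have q2 : ((m' : G) : G ⧸ M) = 1 := (QuotientGroup.eq_one_iff m').mpr hm'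
    have q3 : ((⁅d, d'⁆ : G) : G ⧸ M) = 1 :=
      (QuotientGroup.eq_one_iff _).mpr (hi (Subgroup.commutator_mem_commutator hd hd'))
    rw [commutatorElement_def] at q3 ⊢
    simp only [QuotientGroup.mk_mul, QuotientGroup.mk_inv, q1, q2, one_mul] at q3 ⊢
    exact q3
  have hset : Set.Nonempty {K : Subgroup G | K.Normal ∧ M ≤ K ∧ M ≠ K ∧ K ≤ N2} := by
    refine ⟨N2, ?_, le_sup_left, ?_, le_rfl⟩
    · infer_instance
    · intro h; exact hj (by rw [h]; exact le_sup_right)
  obtain ⟨N', hN'⟩ := (Set.toFinite {K : Subgroup G | K.Normal ∧ M ≤ K ∧ M ≠ K ∧ K ≤ N2}).exists_minimal hset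
  obtain ⟨h1, h2, h3, h4⟩ := hN'.prop
  refine ⟨N', h1, h2, h3, h4.trans (sup_le hMN (Dser_le N j)), fun x hx y hy =>
    hN2comm x (h4 hx) y (h4 hy), ?_⟩
  intro K hK hMK hKN'
  by_cases hKM : M = K
  · exact Or.inl hKM.symm
  · right
    exact le_antisymm hKN' (hN'.le_of_le ⟨hK, hMK, hKM, hKN'.trans h4⟩ hKN')

/-- solvable normal subgroups -/
theorem acyc_solvable [Finite G] {C : Set G} (hgen : Subgroup.closure C = ⊤) (N : Subgroup G)
    [N.Normal] [Group.IsSolvable N] : Acyc (UU C) ↔ Acyc (UM C N) := by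
  have key : ∀ n : ℕ, ∀ M : Subgroup G, M.Normal → M ≤ N → Nat.card N - Nat.card M = n →
      (Acyc (UM C M) ↔ Acyc (UM C N)) := by
    intro n
    induction n using Nat.strong_induction_on with
    | _ n ih =>
      intro M hM hMN hn
      by_cases hne : M = N
      · rw [hne]
      have := hM
      obtain ⟨N', h1, h2, h3, h4, h5, h6⟩ := exists_chief hMN hne
      have := h1
      rw [acyc_step h2 h5 h6 hgen]
      have hlt : Nat.card M < Nat.card N' := by
        refine lt_of_le_of_ne (Subgroup.card_le_of_le h2) ?_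
        intro h
        exact h3 (Subgroup.eq_of_le_of_card_ge h2 h.ge)
      have hle : Nat.card N' ≤ Nat.card N := Subgroup.card_le_of_le h4
      exact ih (Nat.card N - Nat.card N') (by omega) N' h1 h4 rfl
  have := key _ ⊥ inferInstance bot_le rfl
  rwa [UM_bot] at this

end Solvable

end Pool.SubrackLattice
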