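import Pool.Agent.Work.MP_6197f9_h7.Defs

/-!
# Elementary homology of order complexes: deletion of points
-/

namespace Pool.SubrackLattice

open Finset

noncomputable section

open scoped Classical

variable {α : Type*} [PartialOrder α]

/-- the sign of `x` in `σ` -/
def sg (σ : Finset α) (x : α) : ℤ := (-1 : ℤ) ^ (σ.filter fun y => y < x).card

lemma sg_mul_self (σ : Finset α) (x : α) : sg σ x * sg σ x = 1 := by
  unfold sg; rw [← mul_pow]; simp

lemma sg_erase (σ : Finset α) (x y : α) (hy : y ∈ σ) :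
    sg (σ.erase y) x = if y < x then - sg σ x else sg σ x := by
  unfold sg
  split_ifs with h
  · have : (σ.filter fun z => z < x).card = ((σ.erase y).filter fun z => z < x).card + 1 := by
      have : (σ.filter fun z => z < x) = insert y ((σ.erase y).filter fun z => z < x) := by
        ext z; simp only [mem_filter, mem_insert, mem_erase]
        constructor
        · rintro ⟨h1, h2⟩
          by_cases hz : z = y
          · exact Or.inl hz
          · exact Or.inr ⟨⟨hz, h1⟩, h2⟩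
        · rintro (rfl | ⟨⟨_, h1⟩, h2⟩)
          · exact ⟨hy, h⟩
          · exact ⟨h1, h2⟩
      rw [this, card_insert_of_notMem (by simp)]
    rw [this, pow_succ]; ring
  · congr 2
    ext z; simp only [mem_filter, mem_erase]
    constructor
    · rintro ⟨⟨_, h1⟩, h2⟩; exact ⟨h1, h2⟩
    · rintro ⟨h1, h2⟩
      refine ⟨⟨?_, h1⟩, h2⟩
      rintro rfl; exact h h2

lemma sg_insert (σ : Finset α) (x y : α) (hy : y ∉ σ) :
    sg (insert y σ) x = if y < x then - sg σ x else sg σ x := by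
  have h := sg_erase (insert y σ) x y (mem_insert_self _ _)
  rw [erase_insert hy] at h
  rw [h]; split_ifs <;> simp

/-- basis element -/
def E (σ : Finset α) : Finset α →₀ ℤ := Finsupp.single σ 1

lemma boundary_E (σ : Finset α) : boundary (E σ) = ∑ x ∈ σ, sg σ x • E (σ.erase x) := by
  unfold boundary E sg
  rw [Finsupp.lsum_single, LinearMap.sum_apply]
  rfl

/-- contraction with `a` -/
def del (a : α) : (Finset α →₀ ℤ) →ₗ[ℤ] (Finset α →₀ ℤ) :=
  Finsupp.lsum ℤ fun σ : Finset α =>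
    if a ∈ σ then (sg σ a) • Finsupp.lsingle (σ.erase a) else 0

/-- insertion of `a` -/
def ins (a : α) : (Finset α →₀ ℤ) →ₗ[ℤ] (Finset α →₀ ℤ) :=
  Finsupp.lsum ℤ fun σ : Finset α =>
    if a ∈ σ then 0 else (sg σ a) • Finsupp.lsingle (insert a σ)

lemma del_E_mem (a : α) (σ : Finset α) (h : a ∈ σ) : del a (E σ) = sg σ a • E (σ.erase a) := by
  unfold del E
  rw [Finsupp.lsum_single, if_pos h]; rfl

lemma del_E_notMem (a : α) (σ : Finset α) (h : a ∉ σ) : del a (E σ) = 0 := by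
  unfold del E
  rw [Finsupp.lsum_single, if_neg h]; rfl

lemma ins_E_mem (a : α) (σ : Finset α) (h : a ∈ σ) : ins a (E σ) = 0 := by
  unfold ins E
  rw [Finsupp.lsum_single, if_pos h]; rfl

lemma ins_E_notMem (a : α) (σ : Finset α) (h : a ∉ σ) :
    ins a (E σ) = sg σ a • E (insert a σ) := by
  unfold ins E
  rw [Finsupp.lsum_single, if_neg h]; rfl

/-- chains of all dimensions -/
def Ch (P : Set α) : Submodule ℤ (Finset α →₀ ℤ) :=
  Finsupp.supported ℤ ℤ {σ | IsFace P σ}

lemma supported_eq (s : Set (Finset α)) :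
    Finsupp.supported ℤ ℤ s = Submodule.span ℤ (E '' s) := by
  rw [Finsupp.supported_eq_span_single]; rfl

lemma eq_on {s : Set (Finset α)} {M : Type*} [AddCommGroup M] (f g : (Finset α →₀ ℤ) →ₗ[ℤ] M)
    (h : ∀ σ ∈ s, f (E σ) = g (E σ)) : ∀ w ∈ Finsupp.supported ℤ ℤ s, f w = g w := by
  intro w hw
  rw [supported_eq] at hw
  exact LinearMap.eqOn_span (by rintro _ ⟨σ, hσ, rfl⟩; exact h σ hσ) hw

lemma map_mem {s : Set (Finset α)} (f : (Finset α →₀ ℤ) →ₗ[ℤ] (Finset α →₀ ℤ))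
    (T : Submodule ℤ (Finset α →₀ ℤ))
    (h : ∀ σ ∈ s, f (E σ) ∈ T) : ∀ w ∈ Finsupp.supported ℤ ℤ s, f w ∈ T := by
  intro w hw
  rw [supported_eq] at hw
  have : Submodule.span ℤ (E '' s) ≤ T.comap f := by
    rw [Submodule.span_le]; rintro _ ⟨σ, hσ, rfl⟩; exact h σ hσ
  exact this hw

lemma E_mem {s : Set (Finset α)} {σ : Finset α} (h : σ ∈ s) : E σ ∈ Finsupp.supported ℤ ℤ s :=
  Finsupp.single_mem_supported ℤ 1 h

lemma Ch_mono {P Q : Set α} (h : P ⊆ Q) : Ch P ≤ Ch Q := by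
  apply Finsupp.supported_mono
  intro σ hσ
  exact ⟨fun x hx => h (hσ.1 x hx), hσ.2⟩

lemma IsFace.erase {P : Set α} {σ : Finset α} (h : IsFace P σ) (x : α) :
    IsFace P (σ.erase x) :=
  ⟨fun y hy => h.1 y (mem_of_mem_erase hy),
   fun y hy z hz => h.2 y (mem_of_mem_erase hy) z (mem_of_mem_erase hz)⟩

lemma boundary_mem {P : Set α} {w : Finset α →₀ ℤ} (hw : w ∈ Ch P) : boundary w ∈ Ch P := by
  refine map_mem boundary (Ch P) ?_ w hw
  intro σ hσ
  rw [boundary_E]
  exact Submodule.sum_mem _ fun x _ => Submodule.smul_mem _ _ (E_mem (IsFace.erase hσ x))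

lemma IsFace.lt_or_lt {P : Set α} {σ : Finset α} (h : IsFace P σ) {x y : α} (hx : x ∈ σ)
    (hy : y ∈ σ) (hne : x ≠ y) : x < y ∨ y < x := by
  rcases h.2 x hx y hy with h1 | h1
  · exact Or.inl (lt_of_le_of_ne h1 hne)
  · exact Or.inr (lt_of_le_of_ne h1 hne.symm)

/-- the basic sign relation -/
lemma sg_anti {P : Set α} {σ : Finset α} (h : IsFace P σ) {x y : α} (hx : x ∈ σ)
    (hy : y ∈ σ) (hne : x ≠ y) :
    sg σ x * sg (σ.erase x) y = - (sg σ y * sg (σ.erase y) x) := by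
  rw [sg_erase σ y x hx, sg_erase σ x y hy]
  rcases h.lt_or_lt hx hy hne with h1 | h1
  · rw [if_pos h1, if_neg (not_lt_of_gt h1)]; ring
  · rw [if_pos h1, if_neg (not_lt_of_gt h1)]; ring

lemma boundary_boundary {P : Set α} {w : Finset α →₀ ℤ} (hw : w ∈ Ch P) :
    boundary (boundary w) = 0 := by
  have := eq_on (s := {σ | IsFace P σ}) (boundary ∘ₗ boundary) 0 ?_ w hw
  · simpa using this
  intro σ hσ
  simp only [LinearMap.comp_apply, LinearMap.zero_apply]
  rw [boundary_E, map_sum]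
  set G : α → α → (Finset α →₀ ℤ) := fun x y =>
    if x = y then 0 else (sg σ x * sg (σ.erase x) y) • E ((σ.erase x).erase y) with hG
  have h1 : ∀ x ∈ σ, boundary (sg σ x • E (σ.erase x)) = ∑ y ∈ σ, G x y := by
    intro x hx
    rw [map_smul, boundary_E, Finset.smul_sum]
    rw [← Finset.add_sum_erase σ _ hx]
    simp only [hG, if_true, zero_add]
    apply Finset.sum_congr rfl
    intro y hy
    rw [if_neg (ne_of_mem_erase hy).symm, smul_smul]
  rw [Finset.sum_congr rfl h1]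
  have h2 : ∑ x ∈ σ, ∑ y ∈ σ, G x y = - ∑ x ∈ σ, ∑ y ∈ σ, G x y := by
    conv_lhs => rw [Finset.sum_comm]
    rw [← Finset.sum_neg_distrib]
    apply Finset.sum_congr rfl
    intro y hy
    rw [← Finset.sum_neg_distrib]
    apply Finset.sum_congr rfl
    intro x hx
    simp only [hG]
    by_cases hxy : x = y
    · subst hxy; simp
    · rw [if_neg hxy, if_neg (Ne.symm hxy), sg_anti hσ hx hy hxy, erase_right_comm, neg_smul]
  have h3 : (2 : ℤ) • ∑ x ∈ σ, ∑ y ∈ σ, G x y = 0 := by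
    rw [two_smul]; nth_rewrite 1 [h2]; simp
  exact (smul_eq_zero.mp h3).resolve_left (by norm_num)

/-- the elements of `P` comparable with, and different from, `x` -/
def link (P : Set α) (x : α) : Set α := {y ∈ P | y < x ∨ x < y}

lemma link_subset (P : Set α) (x : α) : link P x ⊆ P := fun _ h => h.1

lemma del_mem {P : Set α} (a : α) {w : Finset α →₀ ℤ} (hw : w ∈ Ch P) :
    del a w ∈ Ch (link P a) := by
  refine map_mem (del a) (Ch (link P a)) ?_ w hw
  intro σ hσ
  by_cases h : a ∈ σ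
  · rw [del_E_mem a σ h]
    refine Submodule.smul_mem _ _ (E_mem ⟨fun x hx => ⟨hσ.1 x (mem_of_mem_erase hx), ?_⟩, ?_⟩)
    · exact IsFace.lt_or_lt hσ (mem_of_mem_erase hx) h (ne_of_mem_erase hx)
    · exact (IsFace.erase hσ a).2
  · rw [del_E_notMem a σ h]; exact Submodule.zero_mem _

lemma notMem_of_link {P : Set α} {a : α} {σ : Finset α} (h : IsFace (link P a) σ) : a ∉ σ :=
  fun h1 => by rcases (h.1 a h1).2 with h2 | h2 <;> exact lt_irrefl _ h2

lemma ins_mem {P : Set α} {a : α} (ha : a ∈ P) {w : Finset α →₀ ℤ} (hw : w ∈ Ch (link P a)) :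
    ins a w ∈ Ch P := by
  refine map_mem (ins a) (Ch P) ?_ w hw
  intro σ hσ
  rw [ins_E_notMem a σ (notMem_of_link hσ)]
  refine Submodule.smul_mem _ _ (E_mem ⟨?_, ?_⟩)
  · intro x hx
    rcases mem_insert.mp hx with rfl | hx
    · exact ha
    · exact (hσ.1 x hx).1
  · intro x hx y hy
    rcases mem_insert.mp hx with hx' | hx' <;> rcases mem_insert.mp hy with hy' | hy'
    · rw [hx', hy']; exact Or.inl le_rfl
    · rw [hx']
      rcases (hσ.1 y hy').2 with h | h
      · exact Or.inr h.le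
      · exact Or.inl h.le
    · rw [hy']
      rcases (hσ.1 x hx').2 with h | h
      · exact Or.inl h.le
      · exact Or.inr h.le
    · exact hσ.2 x hx' y hy'

/-- `P` and `a` form a cone (each element of `P` is comparable with `a`). -/
def Comp (P : Set α) (a : α) : Prop := ∀ x ∈ P, x ≤ a ∨ a ≤ x

lemma bd_ins {P : Set α} {a : α} (hP : Comp P a) {w : Finset α →₀ ℤ} (hw : w ∈ Ch P) :
    boundary (ins a w) + ins a (boundary w) = w := by
  refine eq_on (s := {σ | IsFace P σ}) (boundary ∘ₗ ins a + ins a ∘ₗ boundary) LinearMap.id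
    ?_ w hw
  intro σ hσ
  simp only [LinearMap.add_apply, LinearMap.comp_apply, LinearMap.id_apply]
  by_cases h : a ∈ σ
  · rw [ins_E_mem a σ h, map_zero, zero_add, boundary_E, map_sum]
    rw [← Finset.add_sum_erase σ _ h]
    rw [Finset.sum_eq_zero, add_zero, map_smul, ins_E_notMem a _ (notMem_erase a σ),
      insert_erase h, sg_erase σ a a h, if_neg (lt_irrefl _), smul_smul, sg_mul_self, one_smul]
    intro x hx
    rw [map_smul, ins_E_mem a _ (mem_erase.mpr ⟨(ne_of_mem_erase hx).symm, h⟩), smul_zero]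
  · rw [ins_E_notMem a σ h, map_smul, boundary_E, boundary_E, Finset.sum_insert h, map_sum,
      smul_add, erase_insert h, sg_insert σ a a h, if_neg (lt_irrefl _), smul_smul,
      sg_mul_self, one_smul, add_assoc, Finset.smul_sum, ← Finset.sum_add_distrib,
      Finset.sum_eq_zero, add_zero]
    intro x hx
    have hne : a ≠ x := by rintro rfl; exact h hx
    rw [map_smul, ins_E_notMem a _ (fun h' => h (mem_of_mem_erase h')), erase_insert_of_ne hne,
      smul_smul, smul_smul, ← add_smul]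
    have : sg σ a * sg (insert a σ) x + sg σ x * sg (σ.erase x) a = 0 := by
      rw [sg_insert σ x a h, sg_erase σ a x hx]
      rcases hP x (hσ.1 x hx) with h1 | h1
      · have h1 := lt_of_le_of_ne h1 hne.symm
        rw [if_pos h1, if_neg (not_lt_of_gt h1)]; ring
      · have h1 := lt_of_le_of_ne h1 hne
        rw [if_pos h1, if_neg (not_lt_of_gt h1)]; ring
    rw [this, zero_smul]

lemma bd_del {P : Set α} (a : α) {w : Finset α →₀ ℤ} (hw : w ∈ Ch P) :
    boundary (del a w) = - del a (boundary w) := by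
  refine eq_on (s := {σ | IsFace P σ}) (boundary ∘ₗ del a) (- (del a ∘ₗ boundary))
    ?_ w hw
  intro σ hσ
  simp only [LinearMap.neg_apply, LinearMap.comp_apply]
  by_cases h : a ∈ σ
  · rw [del_E_mem a σ h, map_smul, boundary_E, boundary_E, map_sum,
      ← Finset.add_sum_erase σ _ h, map_smul, del_E_notMem a _ (notMem_erase a σ), smul_zero,
      zero_add, ← Finset.sum_neg_distrib, Finset.smul_sum]
    apply Finset.sum_congr rfl
    intro x hx
    rw [map_smul, del_E_mem a _ (mem_erase.mpr ⟨(ne_of_mem_erase hx).symm, h⟩), smul_smul,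
      smul_smul, sg_anti hσ h (mem_of_mem_erase hx) (ne_of_mem_erase hx).symm,
      erase_right_comm, neg_smul]
  · rw [del_E_notMem a σ h, map_zero, boundary_E, map_sum, Finset.sum_eq_zero, neg_zero]
    intro x hx
    rw [map_smul, del_E_notMem a _ (fun h' => h (mem_of_mem_erase h')), smul_zero]

lemma del_ins {P : Set α} {a : α} {w : Finset α →₀ ℤ} (hw : w ∈ Ch (link P a)) :
    del a (ins a w) = w := by
  refine eq_on (s := {σ | IsFace (link P a) σ}) (del a ∘ₗ ins a) LinearMap.id ?_ w hw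
  intro σ hσ
  simp only [LinearMap.comp_apply, LinearMap.id_apply]
  have h := notMem_of_link hσ
  rw [ins_E_notMem a σ h, map_smul, del_E_mem a _ (mem_insert_self a σ), erase_insert h,
    sg_insert σ a a h, if_neg (lt_irrefl _), smul_smul, sg_mul_self, one_smul]

/-- subtracting the part containing `a` -/
lemma sub_ins_del_mem {P : Set α} (a : α) {w : Finset α →₀ ℤ} (hw : w ∈ Ch P) :
    w - ins a (del a w) ∈ Ch (P \ {a}) := by
  refine map_mem (LinearMap.id - ins a ∘ₗ del a) (Ch (P \ {a})) ?_ w hw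
  intro σ hσ
  simp only [LinearMap.sub_apply, LinearMap.comp_apply, LinearMap.id_apply]
  by_cases h : a ∈ σ
  · rw [del_E_mem a σ h, map_smul, ins_E_notMem a _ (notMem_erase a σ), insert_erase h,
      sg_erase σ a a h, if_neg (lt_irrefl _), smul_smul, sg_mul_self, one_smul, sub_self]
    exact Submodule.zero_mem _
  · rw [del_E_notMem a σ h, map_zero, sub_zero]
    refine E_mem ⟨fun x hx => ⟨hσ.1 x hx, ?_⟩, hσ.2⟩
    rintro rfl; exact h hx

lemma del_eq_zero {P : Set α} {a : α} (ha : a ∉ P) {w : Finset α →₀ ℤ} (hw : w ∈ Ch P) :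
    del a w = 0 := by
  refine eq_on (s := {σ | IsFace P σ}) (del a) 0 ?_ w hw
  intro σ hσ
  rw [del_E_notMem a σ (fun h => ha (hσ.1 a h))]; rfl

/-- ungraded acyclicity -/
def Acyc (P : Set α) : Prop := ∀ z ∈ Ch P, boundary z = 0 → ∃ w ∈ Ch P, boundary w = z

/-- vanishing relative homology of the pair `Q ⊆ P` -/
def Rel (Q P : Set α) : Prop :=
  ∀ w ∈ Ch P, boundary w ∈ Ch Q → ∃ u ∈ Ch P, w - boundary u ∈ Ch Q

lemma Rel.refl (P : Set α) : Rel P P := fun w hw _ =>
  ⟨0, Submodule.zero_mem _, by simpa using hw⟩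

lemma Rel.trans {Q P' P : Set α} (h1 : Q ⊆ P') (h2 : P' ⊆ P) (hQ : Rel Q P') (hP : Rel P' P) :
    Rel Q P := by
  intro w hw hb
  obtain ⟨u, hu, h3⟩ := hP w hw (Ch_mono h1 hb)
  obtain ⟨v, hv, h4⟩ := hQ _ h3 (by rw [map_sub, boundary_boundary hu, sub_zero]; exact hb)
  refine ⟨u + v, Submodule.add_mem _ hu (Ch_mono h2 hv), ?_⟩
  rwa [map_add, ← sub_sub]

lemma Rel.acyc_iff {Q P : Set α} (h : Q ⊆ P) (hR : Rel Q P) : Acyc Q ↔ Acyc P := by
  constructor
  · intro hQ w hw hb
    obtain ⟨u, hu, h3⟩ := hR w hw (by rw [hb]; exact Submodule.zero_mem _)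
    obtain ⟨v, hv, h4⟩ := hQ _ h3 (by rw [map_sub, boundary_boundary hu, hb, sub_zero])
    refine ⟨u + v, Submodule.add_mem _ hu (Ch_mono h hv), ?_⟩
    rw [map_add, h4]; abel
  · intro hP w hw hb
    obtain ⟨v, hv, h4⟩ := hP w (Ch_mono h hw) hb
    obtain ⟨u, hu, h3⟩ := hR v hv (by rw [h4]; exact hw)
    exact ⟨_, h3, by rw [map_sub, boundary_boundary hu, h4, sub_zero]⟩

lemma acyc_of_cone {P : Set α} {a : α} (ha : a ∈ P) (hP : Comp P a) : Acyc P := by
  intro z hz hb
  have h1 := bd_ins hP hz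
  rw [hb, map_zero, add_zero] at h1
  refine ⟨ins a z, ?_, h1⟩
  refine map_mem (ins a) (Ch P) ?_ z hz
  intro σ hσ
  by_cases h : a ∈ σ
  · rw [ins_E_mem a σ h]; exact Submodule.zero_mem _
  rw [ins_E_notMem a σ h]
  refine Submodule.smul_mem _ _ (E_mem ⟨?_, ?_⟩)
  · intro x hx
    rcases mem_insert.mp hx with rfl | hx
    · exact ha
    · exact (hσ.1 x hx)
  · intro x hx y hy
    rcases mem_insert.mp hx with hx' | hx' <;> rcases mem_insert.mp hy with hy' | hy'
    · rw [hx', hy']; exact Or.inl le_rfl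
    · rw [hx']; exact (hP y (hσ.1 y hy')).symm
    · rw [hy']; exact hP x (hσ.1 x hx')
    · exact hσ.2 x hx' y hy'

/-- removing a point with acyclic link -/
lemma rel_of_link {P : Set α} {x : α} (hx : x ∈ P) (hl : Acyc (link P x)) : Rel (P \ {x}) P := by
  intro w hw hb
  have hd := del_mem x hw
  have h0 : boundary (del x w) = 0 := by
    rw [bd_del x hw, del_eq_zero (P := P \ {x}) (by simp) hb, neg_zero]
  obtain ⟨v, hv, h1⟩ := hl _ hd h0
  have hcomp : Comp (link P x) x := by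
    rintro y ⟨_, h | h⟩
    · exact Or.inl h.le
    · exact Or.inr h.le
  have h2 := bd_ins hcomp hv
  rw [h1] at h2
  refine ⟨- ins x v, Submodule.neg_mem _ (ins_mem hx hv), ?_⟩
  have h3 := sub_ins_del_mem x hw
  have h4 : w - boundary (- ins x v) = (w - ins x (del x w)) + v := by
    rw [map_neg]
    have : boundary (ins x v) = v - ins x (del x w) := eq_sub_of_add_eq h2
    rw [this]; abel
  rw [h4]
  refine Submodule.add_mem _ h3 (Ch_mono ?_ hv)
  rintro y ⟨hy, h5⟩
  refine ⟨hy, ?_⟩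
  rintro rfl
  rcases h5 with h | h <;> exact lt_irrefl _ h

/-- general removal principle -/
lemma rel_of_removal {Q P : Set α} (hfin : P.Finite) (hQP : Q ⊆ P)
    (h : ∀ P' : Set α, Q ⊆ P' → P' ⊆ P → P' ≠ Q → ∃ x ∈ P' \ Q, Acyc (link P' x)) :
    Rel Q P := by
  suffices H : ∀ n : ℕ, ∀ P' : Set α, Q ⊆ P' → P' ⊆ P → (P' \ Q).ncard = n → Rel Q P' from
    H _ P hQP le_rfl rfl
  intro n
  induction n with
  | zero =>
    intro P' h1 h2 h3
    have : P' \ Q = ∅ := by
      rwa [Set.ncard_eq_zero ((hfin.subset h2).subset Set.sdiff_subset)] at h3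
    have : P' = Q := Set.Subset.antisymm (Set.sdiff_eq_empty.mp this) h1
    rw [this]; exact Rel.refl Q
  | succ n ih =>
    intro P' h1 h2 h3
    have hne : P' ≠ Q := by
      rintro rfl; simp at h3
    obtain ⟨x, hx, hl⟩ := h P' h1 h2 hne
    have hQ' : Q ⊆ P' \ {x} := fun y hy => ⟨h1 hy, by rintro rfl; exact hx.2 hy⟩
    refine Rel.trans hQ' Set.sdiff_subset (ih (P' \ {x}) hQ' (Set.sdiff_subset.trans h2) ?_)
      (rel_of_link hx.1 hl)
    have : (P' \ {x}) \ Q = (P' \ Q) \ {x} := by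
      ext y; simp only [Set.mem_sdiff, Set.mem_singleton_iff]; tauto
    rw [this, Set.ncard_sdiff_singleton_of_mem hx, h3]
    rfl

/-- removal from above: each element of `P \ Q` has a least element of `Q` above it -/
lemma rel_of_up {Q P : Set α} (hfin : P.Finite) (hQP : Q ⊆ P)
    (h : ∀ x ∈ P \ Q, ∃ a ∈ Q, x < a ∧ ∀ y ∈ Q, x < y → a ≤ y) : Rel Q P := by
  apply rel_of_removal hfin hQP
  intro P' h1 h2 h3
  have hne : (P' \ Q).Nonempty := by
    rw [Set.nonempty_iff_ne_empty]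
    intro h4
    exact h3 (Set.Subset.antisymm (Set.sdiff_eq_empty.mp h4) h1)
  obtain ⟨x, hx⟩ := ((hfin.subset h2).subset (Set.sdiff_subset (s := P') (t := Q))).exists_maximal hne
  refine ⟨x, hx.prop, ?_⟩
  obtain ⟨a, ha, hxa, hmin⟩ := h x ⟨h2 hx.prop.1, hx.prop.2⟩
  refine acyc_of_cone (a := a) ⟨h1 ha, Or.inr hxa⟩ ?_
  rintro y ⟨hy, h5 | h5⟩
  · exact Or.inl (h5.trans hxa).le
  · right
    by_cases hyQ : y ∈ Q
    · exact hmin y hyQ h5
    · exact absurd (hx.le_of_ge ⟨hy, hyQ⟩ h5.le) (not_le_of_gt h5)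

/-- removal from below: each element of `P \ Q` has a greatest element of `Q` below it -/
lemma rel_of_down {Q P : Set α} (hfin : P.Finite) (hQP : Q ⊆ P)
    (h : ∀ x ∈ P \ Q, ∃ a ∈ Q, a < x ∧ ∀ y ∈ Q, y < x → y ≤ a) : Rel Q P := by
  apply rel_of_removal hfin hQP
  intro P' h1 h2 h3
  have hne : (P' \ Q).Nonempty := by
    rw [Set.nonempty_iff_ne_empty]
    intro h4
    exact h3 (Set.Subset.antisymm (Set.sdiff_eq_empty.mp h4) h1)
  obtain ⟨x, hx⟩ := ((hfin.subset h2).subset (Set.sdiff_subset (s := P') (t := Q))).exists_minimal hne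
  refine ⟨x, hx.prop, ?_⟩
  obtain ⟨a, ha, hxa, hmin⟩ := h x ⟨h2 hx.prop.1, hx.prop.2⟩
  refine acyc_of_cone (a := a) ⟨h1 ha, Or.inl hxa⟩ ?_
  rintro y ⟨hy, h5 | h5⟩
  · left
    by_cases hyQ : y ∈ Q
    · exact hmin y hyQ h5
    · exact absurd (hx.le_of_le ⟨hy, hyQ⟩ h5.le) (not_le_of_gt h5)
  · exact Or.inr (hxa.trans h5).le

/-- removal of an antichain with acyclic links -/
lemma rel_of_antichain {Q P : Set α} (hfin : P.Finite) (hQP : Q ⊆ P)
    (hanti : ∀ x ∈ P \ Q, ∀ y ∈ P \ Q, x ≤ y → x = y)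
    (h : ∀ x ∈ P \ Q, Acyc (link Q x)) : Rel Q P := by
  apply rel_of_removal hfin hQP
  intro P' h1 h2 h3
  have hne : (P' \ Q).Nonempty := by
    rw [Set.nonempty_iff_ne_empty]
    intro h4
    exact h3 (Set.Subset.antisymm (Set.sdiff_eq_empty.mp h4) h1)
  obtain ⟨x, hx⟩ := hne
  refine ⟨x, hx, ?_⟩
  have : link P' x = link Q x := by
    ext y
    constructor
    · rintro ⟨hy, h5⟩
      refine ⟨?_, h5⟩
      by_contra hyQ
      rcases h5 with h5 | h5
      · exact absurd (hanti y ⟨h2 hy, hyQ⟩ x ⟨h2 hx.1, hx.2⟩ h5.le) h5.ne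
      · exact absurd (hanti x ⟨h2 hx.1, hx.2⟩ y ⟨h2 hy, hyQ⟩ h5.le) h5.ne
    · rintro ⟨hy, h5⟩
      exact ⟨h1 hy, h5⟩
  rw [this]
  exact h x ⟨h2 hx.1, hx.2⟩

/-- two maximal points over an equivalent lower link -/
lemma acyc_of_two {A P : Set α} (hAP : A ⊆ P) {s t : α} (hs : s ∈ P) (ht : t ∈ P)
    (hsA : s ∉ A) (htA : t ∉ A) (hst : s ≠ t)
    (hls : link P s ⊆ A)
    (hRs : Rel (link A s) A) (hRt : Rel (link A t) A) (hP : Acyc P) : Acyc A := by
  have key : ∀ z ∈ Ch A, boundary z = 0 → ∃ w ∈ Ch A, boundary w = z := by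
    intro z hz hb
    obtain ⟨w1, hw1, h1⟩ := hRs z hz (by rw [hb]; exact Submodule.zero_mem _)
    obtain ⟨w2, hw2, h2⟩ := hRt z hz (by rw [hb]; exact Submodule.zero_mem _)
    set z1 := z - boundary w1 with hz1
    set z2 := z - boundary w2 with hz2
    have b1 : boundary z1 = 0 := by rw [hz1, map_sub, hb, boundary_boundary hw1, sub_zero]
    have b2 : boundary z2 = 0 := by rw [hz2, map_sub, hb, boundary_boundary hw2, sub_zero]
    have hcomp : ∀ x : α, Comp (link A x) x := by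
      rintro x y ⟨_, h | h⟩
      · exact Or.inl h.le
      · exact Or.inr h.le
    have c1 := bd_ins (hcomp s) h1
    have c2 := bd_ins (hcomp t) h2
    rw [b1, map_zero, add_zero] at c1
    rw [b2, map_zero, add_zero] at c2
    have hlink : ∀ x : α, link A x ⊆ link P x := fun x y hy => ⟨hAP hy.1, hy.2⟩
    have m1 : ins s z1 ∈ Ch P := ins_mem hs (Ch_mono (hlink s) h1)
    have m2 : ins t z2 ∈ Ch (A ∪ {t}) := by
      refine ins_mem (P := A ∪ {t}) (Or.inr rfl) (Ch_mono ?_ h2)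
      exact fun y hy => ⟨Or.inl hy.1, hy.2⟩
    have hAt : A ∪ {t} ⊆ P := by
      rintro y (hy | hy)
      · exact hAP hy
      · rw [Set.mem_singleton_iff] at hy; rw [hy]; exact ht
    set ζ := ins s z1 - ins t z2 + (w1 - w2) with hζ
    have hζm : ζ ∈ Ch P := by
      refine Submodule.add_mem _ (Submodule.sub_mem _ m1 (Ch_mono hAt m2)) ?_
      exact Submodule.sub_mem _ (Ch_mono hAP hw1) (Ch_mono hAP hw2)
    have hζb : boundary ζ = 0 := by
      rw [hζ, LinearMap.map_add, LinearMap.map_sub (x := ins s z1), c1, c2,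
        LinearMap.map_sub, hz1, hz2]; abel
    obtain ⟨η, hη, hηb⟩ := hP ζ hζm hζb
    have hd : del s ζ = z1 := by
      rw [hζ, LinearMap.map_add, LinearMap.map_sub (x := ins s z1), LinearMap.map_sub (x := w1),
        del_ins h1,
        del_eq_zero (P := A ∪ {t}) (by
          rintro (h | h)
          · exact hsA h
          · exact hst h) m2,
        del_eq_zero hsA hw1, del_eq_zero hsA hw2]
      abel
    have hd2 : boundary (del s η) = - z1 := by
      rw [bd_del s hη, hηb, hd]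
    have hm : del s η ∈ Ch A := Ch_mono hls (del_mem s hη)
    refine ⟨w1 - del s η, Submodule.sub_mem _ hw1 hm, ?_⟩
    rw [map_sub, hd2, hz1]; abel
  exact key

/-- Mayer–Vietoris for a union of two acyclic pieces without relations outside the intersection -/
lemma acyc_union {V D1 D2 : Set α} (h1 : Acyc (V ∪ D1)) (h2 : Acyc (V ∪ D2))
    (hd1 : ∀ x ∈ D1, x ∉ V ∪ D2) (hd2 : ∀ x ∈ D2, x ∉ V ∪ D1)
    (hinc : ∀ x ∈ D1, ∀ y ∈ D2, ¬ x ≤ y ∧ ¬ y ≤ x) :
    Acyc (V ∪ D1 ∪ D2) ↔ Acyc V := by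
  have hsplit : ∀ w ∈ Ch (V ∪ D1 ∪ D2), ∃ a ∈ Ch (V ∪ D1), ∃ b ∈ Ch (V ∪ D2), w = a + b := by
    intro w hw
    have : Ch (V ∪ D1 ∪ D2) ≤ Ch (V ∪ D1) ⊔ Ch (V ∪ D2) := by
      unfold Ch
      rw [← Finsupp.supported_union]
      apply Finsupp.supported_mono
      intro σ hσ
      by_cases h : ∀ x ∈ σ, x ∈ V ∪ D1
      · exact Or.inl ⟨h, hσ.2⟩
      · right
        push Not at h
        obtain ⟨x, hx, hxn⟩ := h
        have hx2 : x ∈ D2 := (hσ.1 x hx).resolve_left hxn
        refine ⟨fun y hy => ?_, hσ.2⟩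
        rcases hσ.1 y hy with (h3 | h3) | h3
        · exact Or.inl h3
        · exfalso
          rcases hσ.2 x hx y hy with h4 | h4
          · exact (hinc y h3 x hx2).2 h4
          · exact (hinc y h3 x hx2).1 h4
        · exact Or.inr h3
    obtain ⟨a, ha, b, hb, hab⟩ := Submodule.mem_sup.mp (this hw)
    exact ⟨a, ha, b, hb, hab.symm⟩
  have hinter : ∀ w, w ∈ Ch (V ∪ D1) → w ∈ Ch (V ∪ D2) → w ∈ Ch V := by
    intro w ha hb
    have : w ∈ Ch (V ∪ D1) ⊓ Ch (V ∪ D2) := ⟨ha, hb⟩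
    unfold Ch at this ⊢
    rw [← Finsupp.supported_inter] at this
    refine Finsupp.supported_mono ?_ this
    rintro σ ⟨hσ1, hσ2⟩
    refine ⟨fun x hx => ?_, hσ1.2⟩
    rcases hσ1.1 x hx with h3 | h3
    · exact h3
    · exact absurd (hσ2.1 x hx) (hd1 x h3)
  have s1 : V ∪ D1 ⊆ V ∪ D1 ∪ D2 := Set.subset_union_left
  have s2 : V ∪ D2 ⊆ V ∪ D1 ∪ D2 := by
    rintro x (h | h)
    · exact Or.inl (Or.inl h)
    · exact Or.inr h
  have t1 : V ⊆ V ∪ D1 := Set.subset_union_left
  have t2 : V ⊆ V ∪ D2 := Set.subset_union_left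
  constructor
  · intro hP z hz hb
    obtain ⟨a, ha, ha'⟩ := h1 z (Ch_mono t1 hz) hb
    obtain ⟨b, hb1, hb'⟩ := h2 z (Ch_mono t2 hz) hb
    obtain ⟨w, hw, hw'⟩ := hP (a - b) (Submodule.sub_mem _ (Ch_mono s1 ha) (Ch_mono s2 hb1))
      (by rw [map_sub, ha', hb', sub_self])
    obtain ⟨c, hc, d, hd, rfl⟩ := hsplit w hw
    have e1 : a - boundary c = b + boundary d := by
      rw [map_add] at hw'
      have : a = b + (boundary c + boundary d) := by rw [hw']; abel
      rw [this]; abel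
    refine ⟨a - boundary c, hinter _ ?_ ?_, ?_⟩
    · exact Submodule.sub_mem _ ha (boundary_mem hc)
    · rw [e1]; exact Submodule.add_mem _ hb1 (boundary_mem hd)
    · rw [map_sub, boundary_boundary hc, ha', sub_zero]
  · intro hV z hz hb
    obtain ⟨a, ha, b, hb1, rfl⟩ := hsplit z hz
    have e1 : boundary a = - boundary b := by
      rw [map_add] at hb; exact eq_neg_of_add_eq_zero_left hb
    obtain ⟨v, hv, hv'⟩ := hV (boundary a) (hinter _ (boundary_mem ha)
      (by rw [e1]; exact Submodule.neg_mem _ (boundary_mem hb1))) (boundary_boundary ha)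
    obtain ⟨p, hp, hp'⟩ := h1 (a - v) (Submodule.sub_mem _ ha (Ch_mono t1 hv))
      (by rw [map_sub, hv', sub_self])
    obtain ⟨q, hq, hq'⟩ := h2 (b + v) (Submodule.add_mem _ hb1 (Ch_mono t2 hv))
      (by rw [map_add, hv', e1]; abel)
    refine ⟨p + q, Submodule.add_mem _ (Ch_mono s1 hp) (Ch_mono s2 hq), ?_⟩
    rw [map_add, hp', hq']; abel

end

end Pool.SubrackLattice
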