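import Pool.Agent.Work.MP_6197f9_h7.Transport
import Pool.Agent.Work.MP_6197f9_h7.GroupPart

/-!
# From subracks to subgroups
-/

namespace Pool.SubrackLattice

section Aug

variable {G R : Type*} [Group G] (φ : G →* Equiv.Perm R) (L : R → G) (C : Set R)

/-- proper nonempty `L`-closed subsets of `C` -/
def XX : Set (Set R) := {S | (∀ x ∈ S, ∀ y ∈ S, φ (L x) y ∈ S) ∧ S.Nonempty ∧ S ⊂ C}

/-- those which miss `T` or meet every orbit in `T` -/
def VV (T : Set R) : Set (Set R) :=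
  {S | S ∈ XX φ L C ∧ ((∀ x ∈ T, x ∉ S) ∨ (∀ x ∈ T, ∃ g, φ g x ∈ S))}

variable {φ L C}

lemma act_mul (g h : G) (x : R) : φ g (φ h x) = φ (g * h) x := by
  rw [map_mul]; rfl

lemma act_one (x : R) : φ 1 x = x := by rw [map_one]; rfl

lemma act_inv (g : G) (x : R) : φ g⁻¹ (φ g x) = x := by rw [act_mul, inv_mul_cancel, act_one]

lemma act_inv' (g : G) (x : R) : φ g (φ g⁻¹ x) = x := by rw [act_mul, mul_inv_cancel, act_one]

section Orbits

variable [Finite R]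
  (hL : ∀ g x, x ∈ C → L (φ g x) = g * L x * g⁻¹) (hC : ∀ g x, x ∈ C → φ g x ∈ C)

/-- orbit of a point -/
def orb (φ : G →* Equiv.Perm R) (x : R) : Set R := {y | ∃ g, y = φ g x}

/-- invariant subset -/
def Inv (φ : G →* Equiv.Perm R) (T : Set R) : Prop := ∀ g x, x ∈ T → φ g x ∈ T

omit [Finite R] in
lemma Inv.iff {T : Set R} (h : Inv φ T) (g : G) (x : R) : φ g x ∈ T ↔ x ∈ T :=
  ⟨fun h1 => by have := h g⁻¹ _ h1; rwa [act_inv] at this, h g x⟩

omit [Finite R] in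
lemma orb_inv (x : R) : Inv φ (orb φ x) := by
  rintro g _ ⟨h, rfl⟩
  exact ⟨g * h, by rw [act_mul]⟩

omit [Finite R] in
lemma mem_orb_self (x : R) : x ∈ orb φ x := ⟨1, by rw [act_one]⟩

omit [Finite R] in
include hC in
lemma sdiff_inv {T : Set R} (h : Inv φ T) : Inv φ (C \ T) := by
  rintro g x ⟨h1, h2⟩
  exact ⟨hC g x h1, fun h3 => h2 ((h.iff g x).mp h3)⟩

omit [Finite R] in
/-- `S ∖ T` is again closed -/
lemma closed_sdiff {S T : Set R} (hS : ∀ x ∈ S, ∀ y ∈ S, φ (L x) y ∈ S) (h : Inv φ T) :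
    ∀ x ∈ S \ T, ∀ y ∈ S \ T, φ (L x) y ∈ S \ T := by
  rintro x ⟨hx, _⟩ y ⟨hy, hyT⟩
  exact ⟨hS x hx y hy, fun h3 => hyT ((h.iff _ _).mp h3)⟩

omit [Finite R] in
include hC in
lemma mem_XX_sdiff {T : Set R} (h : Inv φ T) (hTC : T ⊆ C) (hT : T.Nonempty)
    (hne : (C \ T).Nonempty) : C \ T ∈ XX φ L C := by
  refine ⟨fun x _ y hy => sdiff_inv hC h _ _ hy, hne, Set.sdiff_subset, ?_⟩
  intro hcon
  obtain ⟨x, hx⟩ := hT
  exact (hcon (hTC hx)).2 hx

omit [Finite R] in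
lemma XX_of_sdiff {S T : Set R} (hS : S ∈ XX φ L C) (h : Inv φ T) (hne : (S \ T).Nonempty) :
    S \ T ∈ XX φ L C := by
  refine ⟨closed_sdiff hS.1 h, hne, Set.sdiff_subset.trans hS.2.2.1, ?_⟩
  intro hcon
  exact hS.2.2.2 (hcon.trans Set.sdiff_subset)

include hC in
/-- adding one orbit -/
lemma VV_step {T : Set R} (hT : Inv φ T) (hTC : T ⊆ C) (hTne : T.Nonempty) {x₁ : R}
    (hx₁ : x₁ ∈ C) (hx₁T : x₁ ∉ T) :
    Acyc (VV φ L C T) ↔ Acyc (VV φ L C (T ∪ orb φ x₁)) := by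
  set O := orb φ x₁ with hO
  have hOinv : Inv φ O := orb_inv x₁
  have hx₁O : x₁ ∈ O := mem_orb_self x₁
  have hOC : O ⊆ C := by rintro _ ⟨g, rfl⟩; exact hC g _ hx₁
  have hOT : ∀ x ∈ O, x ∉ T := by
    rintro _ ⟨g, rfl⟩ h; exact hx₁T ((hT.iff g x₁).mp h)
  obtain ⟨t₀, ht₀⟩ := hTne
  have ht₀O : t₀ ∉ O := fun h => hOT t₀ h ht₀
  set V' := VV φ L C (T ∪ O) with hV'
  set D1 : Set (Set R) := {S | S ∈ XX φ L C ∧ (∀ x ∈ O, x ∉ S) ∧ ∀ x ∈ T, ∃ g, φ g x ∈ S}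
    with hD1
  set D2 : Set (Set R) := {S | S ∈ XX φ L C ∧ (∃ g, φ g x₁ ∈ S) ∧ ∀ x ∈ T, x ∉ S} with hD2
  have hfin : ∀ S : Set (Set R), S.Finite := fun S => Set.toFinite S
  -- meeting the orbit `O`
  have hmeet : ∀ S : Set R, (∃ x ∈ O, x ∈ S) → ∀ x ∈ O, ∃ g, φ g x ∈ S := by
    rintro S ⟨_, ⟨g, rfl⟩, hgS⟩ _ ⟨h, rfl⟩
    exact ⟨g * h⁻¹, by rw [act_mul]; simpa using hgS⟩
  have hunion : VV φ L C T = V' ∪ D1 ∪ D2 := by
    ext S
    constructor
    · rintro ⟨hS, h | h⟩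
      · by_cases hm : ∃ x ∈ O, x ∈ S
        · right
          exact ⟨hS, hmeet S hm x₁ hx₁O, h⟩
        · push Not at hm
          left; left
          refine ⟨hS, Or.inl ?_⟩
          rintro x (hx | hx)
          · exact h x hx
          · exact hm x hx
      · by_cases hm : ∃ x ∈ O, x ∈ S
        · left; left
          refine ⟨hS, Or.inr ?_⟩
          rintro x (hx | hx)
          · exact h x hx
          · exact hmeet S hm x hx
        · push Not at hm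
          left; right
          exact ⟨hS, hm, h⟩
    · rintro ((⟨hS, h | h⟩ | ⟨hS, _, h⟩) | ⟨hS, _, h⟩)
      · exact ⟨hS, Or.inl fun x hx => h x (Or.inl hx)⟩
      · exact ⟨hS, Or.inr fun x hx => h x (Or.inl hx)⟩
      · exact ⟨hS, Or.inr h⟩
      · exact ⟨hS, Or.inl h⟩
  rw [hunion]
  apply acyc_union
  · -- `V' ∪ D1` is acyclic
    set Q : Set (Set R) := {S | S ∈ V' ∪ D1 ∧ ∀ x ∈ O, x ∉ S} with hQ
    have hQP : Q ⊆ V' ∪ D1 := fun S hS => hS.1
    have hrel : Rel Q (V' ∪ D1) := by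
      apply rel_of_down (hfin _) hQP
      rintro S ⟨hS, hSQ⟩
      have hSO : ∃ x ∈ O, x ∈ S := by
        by_contra hcon
        push Not at hcon
        exact hSQ ⟨hS, hcon⟩
      obtain ⟨o, ho, hoS⟩ := hSO
      rcases hS with ⟨hSX, h | h⟩ | ⟨_, h, _⟩
      · exact absurd hoS (h o (Or.inr ho))
      · have hmT : ∀ x ∈ T, ∃ g, φ g x ∈ S \ O := by
          intro x hx
          obtain ⟨g, hg⟩ := h x (Or.inl hx)
          exact ⟨g, hg, fun h' => hOT _ h' (hT g x hx)⟩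
        have hD : S \ O ∈ D1 := by
          obtain ⟨g, hg⟩ := hmT t₀ ht₀
          exact ⟨XX_of_sdiff hSX hOinv ⟨_, hg⟩, fun x hx h' => h'.2 hx, hmT⟩
        refine ⟨S \ O, ⟨Or.inr hD, fun x hx h' => h'.2 hx⟩, ?_, ?_⟩
        · exact ⟨Set.sdiff_subset, fun h' => (h' hoS).2 ho⟩
        · rintro S' ⟨_, hS'⟩ hlt
          intro x hx
          exact ⟨hlt.le hx, fun h' => hS' x h' hx⟩
      · exact absurd hoS (h o ho)
    rw [← hrel.acyc_iff hQP]
    have hCO : C \ O ∈ D1 := by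
      refine ⟨mem_XX_sdiff hC hOinv hOC ⟨x₁, hx₁O⟩ ⟨t₀, hTC ht₀, ht₀O⟩, fun x hx h' => h'.2 hx,
        fun x hx => ⟨1, ?_⟩⟩
      rw [act_one]
      exact ⟨hTC hx, fun h' => hOT x h' hx⟩
    refine acyc_of_cone (a := C \ O) ⟨Or.inr hCO, fun x hx h' => h'.2 hx⟩ ?_
    rintro S ⟨hS, hSO⟩
    left
    intro x hx
    have hSX : S ∈ XX φ L C := by
      rcases hS with hS | hS
      · exact hS.1
      · exact hS.1
    exact ⟨hSX.2.2.1 hx, fun h' => hSO x h' hx⟩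
  · -- `V' ∪ D2` is acyclic
    set Q : Set (Set R) := {S | S ∈ V' ∪ D2 ∧ ∀ x ∈ T, x ∉ S} with hQ
    have hQP : Q ⊆ V' ∪ D2 := fun S hS => hS.1
    have hrel : Rel Q (V' ∪ D2) := by
      apply rel_of_down (hfin _) hQP
      rintro S ⟨hS, hSQ⟩
      have hST : ∃ x ∈ T, x ∈ S := by
        by_contra hcon
        push Not at hcon
        exact hSQ ⟨hS, hcon⟩
      obtain ⟨o, ho, hoS⟩ := hST
      rcases hS with ⟨hSX, h | h⟩ | ⟨_, _, h⟩
      · exact absurd hoS (h o (Or.inl ho))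
      · obtain ⟨g, hg⟩ := h x₁ (Or.inr hx₁O)
        have hgT : φ g x₁ ∈ S \ T := ⟨hg, fun h' => hx₁T ((hT.iff g x₁).mp h')⟩
        have hD : S \ T ∈ D2 :=
          ⟨XX_of_sdiff hSX hT ⟨_, hgT⟩, ⟨g, hgT⟩, fun x hx h' => h'.2 hx⟩
        refine ⟨S \ T, ⟨Or.inr hD, fun x hx h' => h'.2 hx⟩, ?_, ?_⟩
        · exact ⟨Set.sdiff_subset, fun h' => (h' hoS).2 ho⟩
        · rintro S' ⟨_, hS'⟩ hlt
          intro x hx
          exact ⟨hlt.le hx, fun h' => hS' x h' hx⟩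
      · exact absurd hoS (h o ho)
    rw [← hrel.acyc_iff hQP]
    have hCT : C \ T ∈ D2 := by
      refine ⟨mem_XX_sdiff hC hT hTC ⟨t₀, ht₀⟩ ⟨x₁, hx₁, hx₁T⟩, ⟨1, ?_⟩,
        fun x hx h' => h'.2 hx⟩
      rw [act_one]
      exact ⟨hx₁, hx₁T⟩
    refine acyc_of_cone (a := C \ T) ⟨Or.inr hCT, fun x hx h' => h'.2 hx⟩ ?_
    rintro S ⟨hS, hST⟩
    left
    intro x hx
    have hSX : S ∈ XX φ L C := by
      rcases hS with hS | hS
      · exact hS.1
      · exact hS.1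
    exact ⟨hSX.2.2.1 hx, fun h' => hST x h' hx⟩
  · rintro S ⟨hSX, hSO, hST⟩
    obtain ⟨g, hg⟩ := hST t₀ ht₀
    rintro (⟨_, h | h⟩ | ⟨_, _, h⟩)
    · exact h _ (Or.inl (hT g t₀ ht₀)) hg
    · obtain ⟨g', hg'⟩ := h x₁ (Or.inr hx₁O)
      exact hSO _ (hOinv g' x₁ hx₁O) hg'
    · exact h _ (hT g t₀ ht₀) hg
  · rintro S ⟨hSX, ⟨g, hg⟩, hST⟩
    rintro (⟨_, h | h⟩ | ⟨_, h, _⟩)
    · exact h _ (Or.inr (hOinv g x₁ hx₁O)) hg
    · obtain ⟨g', hg'⟩ := h t₀ (Or.inl ht₀)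
      exact hST _ (hT g' t₀ ht₀) hg'
    · exact h _ (hOinv g x₁ hx₁O) hg
  · rintro S ⟨_, hSO, hST⟩ S' ⟨_, ⟨g', hg'⟩, hS'T⟩
    constructor
    · intro h
      obtain ⟨g, hg⟩ := hST t₀ ht₀
      exact hS'T _ (hT g t₀ ht₀) (h hg)
    · intro h
      exact hSO _ (hOinv g' x₁ hx₁O) (h hg')

/-- closed proper subsets meeting every orbit -/
def YY (φ : G →* Equiv.Perm R) (L : R → G) (C : Set R) : Set (Set R) :=
  {S | S ∈ XX φ L C ∧ ∀ x ∈ C, ∃ g, φ g x ∈ S}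

omit [Finite R] in
lemma VV_top : VV φ L C C = YY φ L C := by
  ext S
  constructor
  · rintro ⟨hS, h | h⟩
    · obtain ⟨x, hx⟩ := hS.2.1
      exact absurd hx (h x (hS.2.2.1 hx))
    · exact ⟨hS, h⟩
  · rintro ⟨hS, h⟩; exact ⟨hS, Or.inr h⟩

include hC in
lemma acyc_VV {T : Set R} (hT : Inv φ T) (hTC : T ⊆ C) (hTne : T.Nonempty) :
    Acyc (VV φ L C T) ↔ Acyc (YY φ L C) := by
  rw [← VV_top]
  suffices H : ∀ n : ℕ, ∀ T : Set R, Inv φ T → T ⊆ C → T.Nonempty → (C \ T).ncard = n →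
      (Acyc (VV φ L C T) ↔ Acyc (VV φ L C C)) from H _ T hT hTC hTne rfl
  intro n
  induction n using Nat.strong_induction_on with
  | _ n ih =>
    intro T hT hTC hTne hn
    by_cases hne : (C \ T).Nonempty
    · obtain ⟨x₁, hx₁, hx₁T⟩ := hne
      rw [VV_step hC hT hTC hTne hx₁ hx₁T]
      have hinv : Inv φ (T ∪ orb φ x₁) := by
        rintro g x (hx | hx)
        · exact Or.inl (hT g x hx)
        · exact Or.inr (orb_inv x₁ g x hx)
      have hsub : T ∪ orb φ x₁ ⊆ C := by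
        rintro x (hx | ⟨g, rfl⟩)
        · exact hTC hx
        · exact hC g _ hx₁
      refine ih _ ?_ _ hinv hsub (hTne.mono Set.subset_union_left) rfl
      rw [← hn]
      apply Set.ncard_lt_ncard _ (Set.toFinite _)
      refine ⟨fun x hx => ⟨hx.1, fun h => hx.2 (Or.inl h)⟩, ?_⟩
      intro hcon
      exact (hcon (⟨hx₁, hx₁T⟩ : x₁ ∈ C \ T)).2 (Or.inr (mem_orb_self x₁))
    · have : T = C := Set.Subset.antisymm hTC (by
        intro x hx
        by_contra hxT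
        exact hne ⟨x, hx, hxT⟩)
      rw [this]

include hC in
lemma acyc_XX_iff_YY : Acyc (XX φ L C) ↔ Acyc (YY φ L C) := by
  by_cases hCne : C.Nonempty
  · obtain ⟨x₀, hx₀⟩ := hCne
    have hsub : orb φ x₀ ⊆ C := by rintro _ ⟨g, rfl⟩; exact hC g _ hx₀
    have h := acyc_VV (L := L) hC (orb_inv x₀) hsub ⟨x₀, mem_orb_self x₀⟩
    rw [← h]
    have : VV φ L C (orb φ x₀) = XX φ L C := by
      ext S
      constructor
      · rintro ⟨hS, _⟩; exact hS
      · intro hS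
        refine ⟨hS, ?_⟩
        by_cases hm : ∃ x ∈ orb φ x₀, x ∈ S
        · right
          obtain ⟨_, ⟨g, rfl⟩, hgS⟩ := hm
          rintro _ ⟨h, rfl⟩
          exact ⟨g * h⁻¹, by rw [act_mul]; simpa using hgS⟩
        · left
          push Not at hm
          exact hm
    rw [this]
  · have : XX φ L C = YY φ L C := by
      ext S
      constructor
      · intro hS
        exact ⟨hS, fun x hx => absurd ⟨x, hx⟩ hCne⟩
      · intro hS; exact hS.1
    rw [this]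

end Orbits

section Galois

variable [Finite R] [Finite G]

omit [Finite G] in
/-- a closed set is invariant under the subgroup generated by its translations -/
lemma closed_invariant {S : Set R} (hS : ∀ x ∈ S, ∀ y ∈ S, φ (L x) y ∈ S) {g : G}
    (hg : g ∈ Subgroup.closure (L '' S)) : ∀ x, x ∈ S ↔ φ g x ∈ S := by
  have hgen : ∀ s ∈ S, ∀ x, x ∈ S ↔ φ (L s) x ∈ S := by
    intro s hs x
    refine ⟨hS s hs x, fun hx => ?_⟩
    have hmaps : Set.MapsTo (φ (L s)) S S := fun y hy => hS s hs y hy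
    have hinj : Set.InjOn (φ (L s)) S := (φ (L s)).injective.injOn
    have hsurj : Set.SurjOn (φ (L s)) S S := by
      have h1 := Set.eq_of_subset_of_ncard_le (Set.mapsTo_iff_image_subset.mp hmaps)
        (by rw [Set.ncard_image_of_injOn hinj]) (Set.toFinite S)
      exact h1.ge
    obtain ⟨y, hy, hyx⟩ := hsurj hx
    rwa [← (φ (L s)).injective hyx]
  induction hg using Subgroup.closure_induction with
  | mem g hg =>
    obtain ⟨s, hs, rfl⟩ := hg
    exact hgen s hs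
  | one => intro x; rw [act_one]
  | mul a b _ _ ha hb =>
    intro x
    rw [← act_mul, ← ha, ← hb]
  | inv a _ ha =>
    intro x
    have h1 := ha (φ a⁻¹ x)
    rw [act_inv'] at h1
    exact h1.symm

include φ in
theorem acyc_YY_iff_UU (hL : ∀ g x, x ∈ C → L (φ g x) = g * L x * g⁻¹)
    (hC : ∀ g x, x ∈ C → φ g x ∈ C) (hgen : Subgroup.closure (L '' C) = ⊤) :
    Acyc (YY φ L C) ↔ Acyc (UU (L '' C)) := by
  have hfin : ∀ S : Set (Set R), S.Finite := fun S => Set.toFinite S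
  have hfin' : ∀ S : Set (Subgroup G), S.Finite := fun S => Set.toFinite S
  set e : Set R → Subgroup G := fun S => Subgroup.closure (L '' S) with he
  set e' : Subgroup G → Set R := fun H => {x | x ∈ C ∧ L x ∈ H} with he'
  have emono : ∀ S T : Set R, S ⊆ T → e S ≤ e T := fun S T h =>
    Subgroup.closure_mono (Set.image_mono h)
  have e'mono : ∀ H K : Subgroup G, H ≤ K → e' H ⊆ e' K := fun H K h x hx => ⟨hx.1, h hx.2⟩
  have hle : ∀ S : Set R, S ⊆ C → S ⊆ e' (e S) := fun S hS x hx =>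
    ⟨hS hx, Subgroup.subset_closure ⟨x, hx, rfl⟩⟩
  have hge : ∀ H : Subgroup G, e (e' H) ≤ H := by
    intro H
    rw [he, Subgroup.closure_le]
    rintro _ ⟨x, hx, rfl⟩
    exact hx.2
  -- `e` maps `YY` to `UU`
  have heU : ∀ S ∈ YY φ L C, e S ∈ UU (L '' C) := by
    rintro S ⟨⟨hS1, hS2, hS3⟩, hSm⟩
    refine ⟨?_, ?_⟩
    · intro htop
      apply hS3.2
      intro x hx
      obtain ⟨g, hg⟩ := hSm x hx
      have : g ∈ Subgroup.closure (L '' S) := by
        have h1 : Subgroup.closure (L '' S) = ⊤ := htop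
        rw [h1]; trivial
      exact (closed_invariant hS1 this x).mpr hg
    · rintro _ ⟨x, hx, rfl⟩
      obtain ⟨g, hg⟩ := hSm x hx
      refine ⟨g, ?_⟩
      rw [← hL g x hx]
      exact Subgroup.subset_closure ⟨_, hg, rfl⟩
  -- `e'` maps `UU` to `YY`
  have heY : ∀ H ∈ UU (L '' C), e' H ∈ YY φ L C := by
    rintro H ⟨hH, hHm⟩
    have hmeet : ∀ x ∈ C, ∃ g, φ g x ∈ e' H := by
      intro x hx
      obtain ⟨g, hg⟩ := hHm (L x) ⟨x, hx, rfl⟩
      exact ⟨g, hC g x hx, by rw [hL g x hx]; exact hg⟩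
    have hCne : C.Nonempty := by
      by_contra hcon
      rw [Set.not_nonempty_iff_eq_empty] at hcon
      rw [hcon, Set.image_empty, Subgroup.closure_empty] at hgen
      apply hH
      rw [← top_le_iff, ← hgen]
      exact bot_le
    refine ⟨⟨?_, ?_, ?_, ?_⟩, hmeet⟩
    · rintro x ⟨hxC, hxH⟩ y ⟨hyC, hyH⟩
      refine ⟨hC _ _ hyC, ?_⟩
      rw [hL _ _ hyC]
      exact H.mul_mem (H.mul_mem hxH hyH) (H.inv_mem hxH)
    · obtain ⟨x, hx⟩ := hCne
      obtain ⟨g, hg⟩ := hmeet x hx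
      exact ⟨_, hg⟩
    · exact fun x hx => hx.1
    · intro hcon
      apply hH
      rw [← top_le_iff, ← hgen, Subgroup.closure_le]
      rintro _ ⟨x, hx, rfl⟩
      exact (hcon hx).2
  set Yc : Set (Set R) := {S | S ∈ YY φ L C ∧ e' (e S) = S} with hYc
  set Uc : Set (Subgroup G) := {H | H ∈ UU (L '' C) ∧ e (e' H) = H} with hUc
  have hidS : ∀ S : Set R, S ⊆ C → e (e' (e S)) = e S := fun S hS =>
    le_antisymm (hge _) (emono _ _ (hle S hS))
  have hidH : ∀ H : Subgroup G, e' (e (e' H)) = e' H := fun H =>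
    Set.Subset.antisymm (e'mono _ _ (hge H)) (hle _ (fun x hx => hx.1))
  have r1 : Rel Yc (YY φ L C) := by
    apply rel_of_up (hfin _) (fun S hS => hS.1)
    rintro S ⟨hS, hSc⟩
    have hSC : S ⊆ C := hS.1.2.2.1
    have hne : e' (e S) ≠ S := fun h => hSc ⟨hS, h⟩
    refine ⟨e' (e S), ⟨heY _ (heU S hS), hidH _⟩, lt_of_le_of_ne (hle S hSC) hne.symm, ?_⟩
    rintro T ⟨_, hT⟩ hST
    rw [← hT]
    exact e'mono _ _ (emono _ _ hST.le)
  have r2 : Rel Uc (UU (L '' C)) := by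
    apply rel_of_down (hfin' _) (fun S hS => hS.1)
    rintro H ⟨hH, hHc⟩
    have hne : e (e' H) ≠ H := fun h => hHc ⟨hH, h⟩
    refine ⟨e (e' H), ⟨heU _ (heY H hH), ?_⟩, lt_of_le_of_ne (hge H) hne, ?_⟩
    · rw [hidH]
    · rintro K ⟨_, hK⟩ hKH
      rw [← hK]
      exact emono _ _ (e'mono _ _ hKH.le)
  rw [← r1.acyc_iff (fun S hS => hS.1), ← r2.acyc_iff (fun S hS => hS.1)]
  apply acyc_iff_of_iso (e := e) (e' := e')
  · rintro S ⟨hS, hSc⟩
    exact ⟨heU S hS, by rw [hSc]⟩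
  · rintro H ⟨hH, hHc⟩
    exact ⟨heY H hH, by rw [hHc]⟩
  · rintro S ⟨_, hSc⟩; exact hSc
  · rintro H ⟨_, hHc⟩; exact hHc
  · intro S _ T _ h; exact emono _ _ h
  · intro H _ K _ h; exact e'mono _ _ h

theorem acyc_XX_iff_UU (hL : ∀ g x, x ∈ C → L (φ g x) = g * L x * g⁻¹)
    (hC : ∀ g x, x ∈ C → φ g x ∈ C) (hgen : Subgroup.closure (L '' C) = ⊤) :
    Acyc (XX φ L C) ↔ Acyc (UU (L '' C)) := by
  rw [acyc_XX_iff_YY hC, acyc_YY_iff_UU hL hC hgen]

end Galois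

end Aug

section Quotient

variable {G : Type*} [Group G] [Finite G]

/-- subgroups containing `N` and subgroups of `G ⧸ N` -/
theorem acyc_UM_iff_quotient (C : Set G) (N : Subgroup G) [N.Normal] :
    Acyc (UM C N) ↔ Acyc (UU ((QuotientGroup.mk' N) '' C)) := by
  have hsurj : Function.Surjective (QuotientGroup.mk' N) := QuotientGroup.mk'_surjective N
  have hcm : ∀ H : Subgroup G, N ≤ H →
      (H.map (QuotientGroup.mk' N)).comap (QuotientGroup.mk' N) = H := by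
    intro H hNH
    rw [Subgroup.comap_map_eq, QuotientGroup.ker_mk', sup_eq_left.mpr hNH]
  have hmc : ∀ K : Subgroup (G ⧸ N),
      (K.comap (QuotientGroup.mk' N)).map (QuotientGroup.mk' N) = K :=
    fun K => Subgroup.map_comap_eq_self_of_surjective hsurj K
  apply acyc_iff_of_iso (e := fun H : Subgroup G => H.map (QuotientGroup.mk' N))
    (e' := fun K : Subgroup (G ⧸ N) => K.comap (QuotientGroup.mk' N))
  · rintro H ⟨⟨hH, hHm⟩, hNH⟩
    refine ⟨?_, ?_⟩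
    · intro h
      apply hH
      rw [← hcm H hNH, h, Subgroup.comap_top]
    · rintro _ ⟨c, hc, rfl⟩
      obtain ⟨g, hg⟩ := hHm c hc
      exact ⟨QuotientGroup.mk' N g, Subgroup.mem_map.mpr ⟨_, hg, by simp only [map_mul, map_inv]⟩⟩
  · rintro K ⟨hK, hKm⟩
    refine ⟨⟨?_, ?_⟩, ?_⟩
    · intro h
      apply hK
      rw [← hmc K, h]
      exact Subgroup.map_top_of_surjective _ hsurj
    · intro c hc
      obtain ⟨g, hg⟩ := hKm _ ⟨c, hc, rfl⟩
      obtain ⟨g', rfl⟩ := hsurj g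
      exact ⟨g', by rw [Subgroup.mem_comap, map_mul, map_mul, map_inv]; exact hg⟩
    · intro n hn
      rw [Subgroup.mem_comap]
      have : QuotientGroup.mk' N n = 1 := by
        rw [QuotientGroup.mk'_apply]; exact (QuotientGroup.eq_one_iff n).mpr hn
      rw [this]; exact K.one_mem
  · rintro H ⟨_, hNH⟩; exact hcm H hNH
  · rintro K _; exact hmc K
  · intro H _ K _ h; exact Subgroup.map_mono h
  · intro H _ K _ h; exact Subgroup.comap_mono h

end Quotient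

end Pool.SubrackLattice
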