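import Pool.Agent.Work.MP_6197f9_h7.Homology

/-!
# Grading and transport along order isomorphisms
-/

namespace Pool.SubrackLattice

open Finset

noncomputable section

open scoped Classical

section Grading

variable {α : Type*} [PartialOrder α]

/-- projection to the `k`-element chains -/
def proj (k : ℕ) : (Finset α →₀ ℤ) →ₗ[ℤ] (Finset α →₀ ℤ) :=
  Finsupp.lsum ℤ fun σ : Finset α => if σ.card = k then Finsupp.lsingle σ else 0

omit [PartialOrder α] in
lemma proj_E (k : ℕ) (σ : Finset α) : proj k (E σ) = if σ.card = k then E σ else 0 := by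
  unfold proj E
  rw [Finsupp.lsum_single]
  split_ifs <;> rfl

lemma boundary_proj_succ (k : ℕ) {P : Set α} {w : Finset α →₀ ℤ} (hw : w ∈ Ch P) :
    boundary (proj (k + 1) w) = proj k (boundary w) := by
  refine eq_on (s := {σ | IsFace P σ}) (boundary ∘ₗ proj (k + 1)) (proj k ∘ₗ boundary) ?_ w hw
  intro σ _
  simp only [LinearMap.comp_apply]
  rw [proj_E, boundary_E, map_sum]
  have h1 : ∀ x ∈ σ, (σ.erase x).card + 1 = σ.card := fun x hx => card_erase_add_one hx
  split_ifs with h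
  · rw [boundary_E]
    apply Finset.sum_congr rfl
    intro x hx
    rw [map_smul, proj_E, if_pos (by have := h1 x hx; omega)]
  · rw [map_zero, Finset.sum_eq_zero]
    intro x hx
    rw [map_smul, proj_E, if_neg (by have := h1 x hx; omega), smul_zero]

lemma boundary_proj_zero {P : Set α} {w : Finset α →₀ ℤ} (hw : w ∈ Ch P) :
    boundary (proj 0 w) = 0 := by
  refine eq_on (s := {σ | IsFace P σ}) (boundary ∘ₗ proj 0) 0 ?_ w hw
  intro σ _
  simp only [LinearMap.comp_apply, LinearMap.zero_apply]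
  rw [proj_E]
  split_ifs with h
  · rw [Finset.card_eq_zero] at h
    rw [h, boundary_E, Finset.sum_empty]
  · exact map_zero _

lemma proj_mem (k : ℕ) {P : Set α} {w : Finset α →₀ ℤ} (hw : w ∈ Ch P) :
    proj k w ∈ chainsOf P k := by
  refine map_mem (s := {σ | IsFace P σ}) (proj k) (chainsOf P k) ?_ w hw
  intro σ hσ
  rw [proj_E]
  split_ifs with h
  · exact E_mem ⟨hσ, h⟩
  · exact Submodule.zero_mem _

lemma chainsOf_le (P : Set α) (k : ℕ) : chainsOf P k ≤ Ch P :=
  Finsupp.supported_mono fun _ hσ => hσ.1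

lemma proj_eq (k : ℕ) {P : Set α} {w : Finset α →₀ ℤ} (hw : w ∈ chainsOf P k) :
    proj k w = w := by
  refine eq_on (s := {σ | IsFace P σ ∧ σ.card = k}) (proj k) LinearMap.id ?_ w hw
  intro σ hσ
  rw [proj_E, if_pos hσ.2]; rfl

lemma sum_proj (w : Finset α →₀ ℤ) :
    ∑ k ∈ range (w.support.sup card + 1), proj k w = w := by
  set n := w.support.sup card + 1 with hn
  have hw : w ∈ Finsupp.supported ℤ ℤ {σ : Finset α | σ.card < n} := by
    rw [Finsupp.mem_supported]
    intro σ hσ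
    have : σ.card ≤ w.support.sup card := Finset.le_sup (f := card) hσ
    simp only [Set.mem_setOf_eq]; omega
  have h := eq_on (s := {σ : Finset α | σ.card < n}) (∑ k ∈ range n, proj k) LinearMap.id
    ?_ w hw
  · simpa [LinearMap.sum_apply] using h
  intro σ hσ
  rw [LinearMap.sum_apply]
  simp only [proj_E, LinearMap.id_apply]
  rw [Finset.sum_ite_eq, if_pos (mem_range.mpr hσ)]

theorem acyclic_iff_acyc (P : Set α) : Acyclic P ↔ Acyc P := by
  constructor
  · intro h z hz hb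
    have h1 : ∀ k, ∃ w ∈ chainsOf P (k + 1), boundary w = proj k z := by
      intro k
      refine h k (proj k z) (proj_mem k hz) ?_
      cases k with
      | zero => exact boundary_proj_zero hz
      | succ k => rw [boundary_proj_succ k hz, hb, map_zero]
    choose w hw hw' using h1
    refine ⟨∑ k ∈ range (z.support.sup card + 1), w k,
      Submodule.sum_mem _ fun k _ => chainsOf_le P _ (hw k), ?_⟩
    rw [map_sum]
    simp only [hw']
    exact sum_proj z
  · intro h k z hz hb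
    obtain ⟨w, hw, hw'⟩ := h z (chainsOf_le P k hz) hb
    exact ⟨proj (k + 1) w, proj_mem _ hw, by rw [boundary_proj_succ k hw, hw', proj_eq k hz]⟩

lemma not_acyc_empty : ¬ Acyc (∅ : Set α) := by
  intro h
  obtain ⟨w, hw, hw'⟩ := h (E ∅) (E_mem ⟨by simp, by simp⟩) (by rw [boundary_E, Finset.sum_empty])
  have : boundary w = 0 := by
    refine eq_on (s := {σ | IsFace (∅ : Set α) σ}) boundary 0 ?_ w hw
    intro σ hσ
    have : σ = ∅ := by
      rw [Finset.eq_empty_iff_forall_notMem]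
      intro x hx; exact hσ.1 x hx
    rw [this, boundary_E, Finset.sum_empty]; rfl
  rw [this] at hw'
  have h2 : (E (∅ : Finset α)) ∅ = 0 := by rw [← hw']; rfl
  simp [E] at h2

end Grading

section Transport

variable {α β : Type*} [PartialOrder α] [PartialOrder β]

/-- push-forward of chains -/
def push (e : α → β) : (Finset α →₀ ℤ) →ₗ[ℤ] (Finset β →₀ ℤ) :=
  Finsupp.lmapDomain ℤ ℤ (Finset.image e)

omit [PartialOrder α] [PartialOrder β] in
lemma push_E (e : α → β) (σ : Finset α) : push e (E σ) = E (σ.image e) := by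
  unfold push E
  rw [Finsupp.lmapDomain_apply, Finsupp.mapDomain_single]

/-- `e` is an order embedding on `P` with values in `Q` -/
structure EmbOn (e : α → β) (P : Set α) (Q : Set β) : Prop where
  maps : ∀ x ∈ P, e x ∈ Q
  le_iff : ∀ x ∈ P, ∀ y ∈ P, e x ≤ e y ↔ x ≤ y

lemma EmbOn.inj {e : α → β} {P : Set α} {Q : Set β} (h : EmbOn e P Q) {x y : α} (hx : x ∈ P)
    (hy : y ∈ P) (hxy : e x = e y) : x = y :=
  le_antisymm ((h.le_iff x hx y hy).mp hxy.le) ((h.le_iff y hy x hx).mp hxy.ge)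

lemma EmbOn.lt_iff {e : α → β} {P : Set α} {Q : Set β} (h : EmbOn e P Q) {x y : α} (hx : x ∈ P)
    (hy : y ∈ P) : e x < e y ↔ x < y := by
  rw [lt_iff_le_not_ge, lt_iff_le_not_ge, h.le_iff x hx y hy, h.le_iff y hy x hx]

lemma push_mem {e : α → β} {P : Set α} {Q : Set β} (h : EmbOn e P Q) {w : Finset α →₀ ℤ}
    (hw : w ∈ Ch P) : push e w ∈ Ch Q := by
  rw [Ch, supported_eq] at hw
  have : Submodule.span ℤ (E '' {σ | IsFace P σ}) ≤ (Ch Q).comap (push e) := by
    rw [Submodule.span_le]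
    rintro _ ⟨σ, hσ, rfl⟩
    rw [SetLike.mem_coe, Submodule.mem_comap, push_E]
    refine E_mem ⟨?_, ?_⟩
    · intro y hy
      obtain ⟨x, hx, rfl⟩ := mem_image.mp hy
      exact h.maps x (hσ.1 x hx)
    · intro y hy z hz
      obtain ⟨x, hx, rfl⟩ := mem_image.mp hy
      obtain ⟨x', hx', rfl⟩ := mem_image.mp hz
      rw [h.le_iff x (hσ.1 x hx) x' (hσ.1 x' hx'), h.le_iff x' (hσ.1 x' hx') x (hσ.1 x hx)]
      exact hσ.2 x hx x' hx'
  exact this hw

lemma boundary_push {e : α → β} {P : Set α} {Q : Set β} (h : EmbOn e P Q) {w : Finset α →₀ ℤ}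
    (hw : w ∈ Ch P) : boundary (push e w) = push e (boundary w) := by
  refine eq_on (s := {σ | IsFace P σ}) (boundary ∘ₗ push e) (push e ∘ₗ boundary) ?_ w hw
  intro σ hσ
  simp only [LinearMap.comp_apply]
  have hinj : Set.InjOn e σ := fun x hx y hy hxy => h.inj (hσ.1 x hx) (hσ.1 y hy) hxy
  rw [push_E, boundary_E, boundary_E, map_sum, Finset.sum_image hinj]
  apply Finset.sum_congr rfl
  intro x hx
  rw [map_smul, push_E]
  congr 1
  · unfold sg
    congr 1
    have : (σ.image e).filter (fun y => y < e x) = (σ.filter fun y => y < x).image e := by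
      ext y
      simp only [mem_filter, mem_image]
      constructor
      · rintro ⟨⟨z, hz, rfl⟩, h2⟩
        exact ⟨z, ⟨hz, (h.lt_iff (hσ.1 z hz) (hσ.1 x hx)).mp h2⟩, rfl⟩
      · rintro ⟨z, ⟨hz, h2⟩, rfl⟩
        exact ⟨⟨z, hz, rfl⟩, (h.lt_iff (hσ.1 z hz) (hσ.1 x hx)).mpr h2⟩
    rw [this, card_image_of_injOn]
    exact hinj.mono (fun y hy => (mem_filter.mp hy).1)
  · congr 1
    ext y
    simp only [mem_erase, mem_image]
    constructor
    · rintro ⟨hne, z, hz, rfl⟩
      exact ⟨z, ⟨fun h' => hne (by rw [h']), hz⟩, rfl⟩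
    · rintro ⟨z, ⟨hne, hz⟩, rfl⟩
      exact ⟨fun h' => hne (hinj hz hx h'), z, hz, rfl⟩

/-- acyclicity is transported by order isomorphisms -/
lemma acyc_transport {e : α → β} {e' : β → α} {P : Set α} {Q : Set β} (h : EmbOn e P Q)
    (h' : EmbOn e' Q P) (hee : ∀ y ∈ Q, e (e' y) = y) (hP : Acyc P) : Acyc Q := by
  intro z hz hb
  obtain ⟨w, hw, hw'⟩ := hP (push e' z) (push_mem h' hz) (by
    rw [boundary_push h' hz, hb, map_zero])
  refine ⟨push e w, push_mem h hw, ?_⟩
  rw [boundary_push h hw, hw']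
  refine eq_on (s := {σ | IsFace Q σ}) (push e ∘ₗ push e') LinearMap.id ?_ z hz
  intro σ hσ
  simp only [LinearMap.comp_apply, LinearMap.id_apply]
  rw [push_E, push_E, image_image]
  congr 1
  ext y
  simp only [mem_image, Function.comp_apply]
  constructor
  · rintro ⟨x, hx, rfl⟩
    rwa [hee x (hσ.1 x hx)]
  · intro hy
    exact ⟨y, hy, hee y (hσ.1 y hy)⟩

lemma acyc_iff_of_iso {e : α → β} {e' : β → α} {P : Set α} {Q : Set β}
    (m : ∀ x ∈ P, e x ∈ Q) (m' : ∀ y ∈ Q, e' y ∈ P) (h1 : ∀ x ∈ P, e' (e x) = x)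
    (h2 : ∀ y ∈ Q, e (e' y) = y) (mono : ∀ x ∈ P, ∀ y ∈ P, x ≤ y → e x ≤ e y)
    (mono' : ∀ x ∈ Q, ∀ y ∈ Q, x ≤ y → e' x ≤ e' y) : Acyc P ↔ Acyc Q := by
  have a : EmbOn e P Q := ⟨m, fun x hx y hy => ⟨fun h => by
    have := mono' _ (m x hx) _ (m y hy) h
    rwa [h1 x hx, h1 y hy] at this, mono x hx y hy⟩⟩
  have b : EmbOn e' Q P := ⟨m', fun x hx y hy => ⟨fun h => by
    have := mono _ (m' x hx) _ (m' y hy) h
    rwa [h2 x hx, h2 y hy] at this, mono' x hx y hy⟩⟩
  exact ⟨acyc_transport a b h2, acyc_transport b a h1⟩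

end Transport

end

end Pool.SubrackLattice
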